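import Pool.Agent.H283.HT.Stm

/-!
# Task PL4: four directions for a planar symmetric convex body, with a uniform step (helper79)
-/

set_option autoImplicit false

namespace Pool.Agent.H79.HTPL4

open Pool.Agent.H283.HT
open scoped Topology

/-- the scaled body -/
def S (Q : Set P2) (c : ℝ) : Set P2 := {v | ∃ p ∈ Q, v = c • p}

theorem S_add {Q : Set P2} (hQ : Convex ℝ Q) {c d : ℝ} (hc : 0 ≤ c) (hd : 0 ≤ d) {u v : P2}
    (hu : u ∈ S Q c) (hv : v ∈ S Q d) : u + v ∈ S Q (c + d) := by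
  obtain ⟨p, hp, rfl⟩ := hu
  obtain ⟨r, hr, rfl⟩ := hv
  rcases (add_nonneg hc hd).eq_or_lt with h | h
  · have h1 : c = 0 := by linarith
    have h2 : d = 0 := by linarith
    rw [h1, h2]
    exact ⟨p, hp, by simp⟩
  · refine ⟨(c / (c + d)) • p + (d / (c + d)) • r,
      hQ hp hr (div_nonneg hc h.le) (div_nonneg hd h.le) ?_, ?_⟩
    · rw [← add_div, div_self h.ne']
    · rw [smul_add, smul_smul, smul_smul, mul_div_cancel₀ _ h.ne', mul_div_cancel₀ _ h.ne']

theorem S_mono {Q : Set P2} (hQ : Convex ℝ Q) (h0 : (0 : P2) ∈ Q) {c d : ℝ} (hc : 0 ≤ c)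
    (hcd : c ≤ d) {u : P2} (hu : u ∈ S Q c) : u ∈ S Q d := by
  have h1 : (0 : P2) ∈ S Q (d - c) := ⟨0, h0, by simp⟩
  have h2 := S_add hQ hc (sub_nonneg.2 hcd) hu h1
  rwa [add_zero, add_sub_cancel] at h2

theorem S_smul {Q : Set P2} (hs : ∀ p ∈ Q, -p ∈ Q) {p : P2} (hp : p ∈ Q) (c : ℝ) :
    c • p ∈ S Q |c| := by
  rcases le_total 0 c with h | h
  · exact ⟨p, hp, by rw [abs_of_nonneg h]⟩
  · exact ⟨-p, hs p hp, by rw [abs_of_nonpos h, smul_neg, neg_smul, neg_neg]⟩

theorem PL4_done (hDI : S_DI) : S_PL4 := by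
  intro Q hQ
  obtain ⟨-, -, -, hpos⟩ := hDI Q hQ
  have h0 : (0 : P2) ∈ Q := interior_subset hQ.zero
  have hcont : Continuous fun p : P2 => dt p p := by
    unfold dt
    fun_prop
  obtain ⟨p₀, hp₀, hmax⟩ := hQ.comp.exists_isMaxOn ⟨0, h0⟩ hcont.continuousOn
  have hmax' : ∀ p ∈ Q, dt p p ≤ dt p₀ p₀ := fun p hp => hmax hp
  set D : ℝ := dt p₀ p₀ with hD
  have hD0 : 0 < D := by
    obtain ⟨x, hx, hx1⟩ := hpos (1, 0) (by
      intro h
      have := congrArg Prod.fst h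
      simp at this)
    refine lt_of_lt_of_le ?_ (hmax' x hx)
    unfold dt at hx1 ⊢
    simp only [one_mul, zero_mul, add_zero] at hx1
    nlinarith [mul_self_nonneg x.2, mul_pos hx1 hx1]
  set a : P2 := (-p₀.2, p₀.1) with ha
  -- a small multiple of `a`
  obtain ⟨t, ht0, ht1, hta⟩ : ∃ t : ℝ, 0 < t ∧ t ≤ 1 ∧ t • a ∈ Q := by
    have h1 : ∀ᶠ t : ℝ in 𝓝 0, t • a ∈ Q := by
      have h2 : Filter.Tendsto (fun t : ℝ => t • a) (𝓝 0) (𝓝 ((0 : ℝ) • a)) :=
        (continuous_id.smul continuous_const).tendsto 0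
      rw [zero_smul] at h2
      exact h2 (mem_interior_iff_mem_nhds.1 hQ.zero)
    obtain ⟨ε, hε, h2⟩ := Metric.eventually_nhds_iff.1 h1
    refine ⟨min (ε / 2) 1, lt_min (by linarith) one_pos, min_le_right _ _, h2 ?_⟩
    rw [Real.dist_eq, sub_zero, abs_of_pos (lt_min (by linarith) one_pos)]
    exact lt_of_le_of_lt (min_le_left _ _) (by linarith)
  set δ : ℝ := t / 4 with hδ
  have hδ0 : 0 < δ := by positivity
  have hδ1 : δ ≤ 1 / 4 := by linarith
  have hη1 : δ ^ 2 / 2 < 1 := by nlinarith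
  refine ⟨a, p₀, δ, δ ^ 2 / 2, hδ0, by positivity, hη1, ?_⟩
  intro p hp
  set x : ℝ := dt p₀ p / D with hx
  set y : ℝ := dt a p / D with hy
  have hpxy : p = x • p₀ + y • a := by
    have e1 : x * D = dt p₀ p := div_mul_cancel₀ _ hD0.ne'
    have e2 : y * D = dt a p := div_mul_cancel₀ _ hD0.ne'
    unfold dt at hD e1 e2
    have e3 : a.1 = -p₀.2 := rfl
    have e4 : a.2 = p₀.1 := rfl
    rw [e3, e4] at e2
    refine Prod.ext ?_ ?_
    · change p.1 = x * p₀.1 + y * a.1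
      rw [e3]
      have : D * p.1 = D * (x * p₀.1 + y * (-p₀.2)) := by
        linear_combination p.1 * hD - p₀.1 * e1 + p₀.2 * e2
      exact mul_left_cancel₀ hD0.ne' this
    · change p.2 = x * p₀.2 + y * a.2
      rw [e4]
      have : D * p.2 = D * (x * p₀.2 + y * p₀.1) := by
        linear_combination p.2 * hD - p₀.2 * e1 - p₀.1 * e2
      exact mul_left_cancel₀ hD0.ne' this
  have hxy : x ^ 2 + y ^ 2 ≤ 1 := by
    have e1 : x * D = dt p₀ p := div_mul_cancel₀ _ hD0.ne'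
    have e2 : y * D = dt a p := div_mul_cancel₀ _ hD0.ne'
    have h1 : (x ^ 2 + y ^ 2) * D ^ 2 = D * dt p p := by
      have : (x ^ 2 + y ^ 2) * D ^ 2 = (x * D) ^ 2 + (y * D) ^ 2 := by ring
      rw [this, e1, e2, hD, ha]
      unfold dt
      simp only
      ring
    have h2 : (x ^ 2 + y ^ 2) * D ^ 2 ≤ 1 * D ^ 2 := by
      rw [h1, one_mul, sq]
      exact mul_le_mul_of_nonneg_left (hmax' p hp) hD0.le
    exact le_of_mul_le_mul_right h2 (by positivity)
  -- reduction to membership in the scaled body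
  suffices h : ∃ w ∈ ({a, -a, p₀, -p₀} : Set P2), p + δ • w ∈ S Q (1 - δ ^ 2 / 2) by
    obtain ⟨w, hw, p', hp', h⟩ := h
    exact ⟨w, hw, p', hp', h⟩
  have hy2 : |y| ≤ 1 := by
    rw [abs_le_one_iff_mul_self_le_one]
    nlinarith [sq_nonneg x]
  have hx2 : |x| ≤ 1 := by
    rw [abs_le_one_iff_mul_self_le_one]
    nlinarith [sq_nonneg y]
  rcases le_or_gt δ |y| with hcase | hcase
  · -- the direction `±a`
    have hy0 : 0 < |y| := lt_of_lt_of_le hδ0 hcase
    have hxle : |x| ≤ 1 - y ^ 2 / 2 := by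
      have hy3 : y ^ 2 ≤ 1 := by nlinarith [sq_nonneg x]
      refine abs_le_of_sq_le_sq ?_ (by linarith)
      nlinarith [sq_nonneg (y ^ 2)]
    have hkey : δ ^ 2 / 2 ≤ δ / |y| * (1 - |x|) := by
      have h1 : y ^ 2 / 2 ≤ 1 - |x| := by linarith
      calc δ ^ 2 / 2 = δ * δ / 2 := by ring
        _ ≤ δ * |y| / 2 := by
            have := mul_le_mul_of_nonneg_left hcase hδ0.le
            linarith
        _ = δ / |y| * (y ^ 2 / 2) := by
            rw [← sq_abs y]
            field_simp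
        _ ≤ δ / |y| * (1 - |x|) := mul_le_mul_of_nonneg_left h1 (by positivity)
    have hδy : δ / |y| ≤ 1 := (div_le_one hy0).2 hcase
    obtain ⟨w, hw, hwy⟩ : ∃ w ∈ ({a, -a, p₀, -p₀} : Set P2), |y| • w = (-y) • a := by
      rcases le_total 0 y with h | h
      · refine ⟨-a, by simp, ?_⟩
        rw [abs_of_nonneg h, smul_neg, neg_smul]
      · refine ⟨a, by simp, ?_⟩
        rw [abs_of_nonpos h]
    refine ⟨w, hw, ?_⟩
    have h2 : p + δ • w = (1 - δ / |y|) • p + (δ / |y| * x) • p₀ := by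
      have h3 : δ • w = (δ / |y|) • (|y| • w) := by
        rw [smul_smul, div_mul_cancel₀ _ hy0.ne']
      have h4 : (x • p₀ : P2) = p - y • a := by
        rw [eq_sub_iff_add_eq]
        exact hpxy.symm
      rw [h3, hwy, mul_smul, h4]
      module
    rw [h2]
    have h5 := S_add hQ.conv (abs_nonneg _) (abs_nonneg _)
      (S_smul hQ.sym hp (1 - δ / |y|)) (S_smul hQ.sym hp₀ (δ / |y| * x))
    refine S_mono hQ.conv h0 (by positivity) ?_ h5
    rw [abs_of_nonneg (by linarith : 0 ≤ 1 - δ / |y|), abs_mul,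
      abs_of_pos (by positivity : 0 < δ / |y|)]
    linarith
  · -- the direction `±p₀`
    obtain ⟨w, hw, σ, hσ, hwσ⟩ : ∃ w ∈ ({a, -a, p₀, -p₀} : Set P2), ∃ σ : ℝ,
        |x + σ / 2| ≤ 1 / 2 ∧ w = σ • p₀ := by
      rcases le_total 0 x with h | h
      · refine ⟨-p₀, by simp, -1, ?_, by simp⟩
        rw [abs_of_nonneg h] at hx2
        rw [abs_le]
        constructor <;> linarith
      · refine ⟨p₀, by simp, 1, ?_, by simp⟩
        rw [abs_of_nonpos h] at hx2
        rw [abs_le]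
        constructor <;> linarith
    refine ⟨w, hw, ?_⟩
    have h2 : p + δ • w = (1 - 2 * δ) • p + (2 * δ * (x + σ / 2)) • p₀ +
        (2 * δ * (y / t)) • (t • a) := by
      have h3 : (2 * δ * (y / t)) • (t • a) = (2 * δ) • (y • a) := by
        rw [smul_smul, smul_smul]
        congr 1
        field_simp
      have h4 : (y • a : P2) = p - x • p₀ := by
        rw [eq_sub_iff_add_eq, add_comm]
        exact hpxy.symm
      rw [h3, h4, hwσ]
      module
    rw [h2]
    have h5 := S_add hQ.conv (by positivity) (abs_nonneg _)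
      (S_add hQ.conv (abs_nonneg _) (abs_nonneg _)
        (S_smul hQ.sym hp (1 - 2 * δ)) (S_smul hQ.sym hp₀ (2 * δ * (x + σ / 2))))
      (S_smul hQ.sym hta (2 * δ * (y / t)))
    refine S_mono hQ.conv h0 (by positivity) ?_ h5
    have h6 : |y / t| ≤ 1 / 4 := by
      rw [abs_div, abs_of_pos ht0, div_le_iff₀ ht0]
      linarith
    rw [abs_of_nonneg (by linarith : 0 ≤ 1 - 2 * δ), abs_mul, abs_mul (2 * δ) (y / t),
      abs_of_pos (by positivity : 0 < 2 * δ)]
    have h7 : 2 * δ * |x + σ / 2| ≤ 2 * δ * (1 / 2) :=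
      mul_le_mul_of_nonneg_left hσ (by positivity)
    have h8 : 2 * δ * |y / t| ≤ 2 * δ * (1 / 4) :=
      mul_le_mul_of_nonneg_left h6 (by positivity)
    nlinarith

end Pool.Agent.H79.HTPL4
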