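import Pool.Agent.H402.FF.Stm

/-!
# Project FF of helper402, part AL
-/

set_option autoImplicit false
set_option linter.unusedSectionVars false
set_option linter.unusedVariables false
set_option linter.unusedSimpArgs false

open Finset

namespace Pool.Agent.H79.FF_AL

open Pool.Agent.H402.FF

universe u

/-! ### Symmetry -/

theorem SL_swapYZ {F X Y Z : Type*} [Field F] {T : X → Y → Z → F} {k : ℕ} (h : SL T k) :
    SL (fun x z y => T x y z) k := by
  obtain ⟨p, q, r, hp, a, u, b, v, c, e, H⟩ := h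
  refine ⟨p, r, q, by omega, a, fun i z y => u i y z, c, e, b, v, fun x z y => ?_⟩
  show T x y z = _
  rw [H]
  ring

theorem FM_swapYZ {F X Y Z : Type*} [Field F] {T : X → Y → Z → F} {l : ℕ}
    (h : FM (fun x z y => T x y z) l) : FM T l := by
  obtain ⟨px, py, pz, H⟩ := h
  exact ⟨px, pz, py, fun h' => H (SL_swapYZ h')⟩

section

variable {F : Type u} [Field F]

theorem TII_swap (e a b c a' b' c' α β γ d : F) :
    (fun x z y => TII e a b c a' b' c' α β γ d x y z) =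
      TII (e + a) (-a) c b (a' - a) c' b' α γ β d := by
  funext x z y
  unfold TII ind
  rcases lt_trichotomy x y with h1 | h1 | h1 <;>
    rcases lt_trichotomy y z with h2 | h2 | h2 <;>
    rcases lt_trichotomy x z with h3 | h3 | h3 <;>
    first
    | (exfalso; omega)
    | (simp only [h1, h2, h3, h1.ne, h2.ne, h3.ne, h1.ne', h2.ne', h3.ne', h1.not_gt, h2.not_gt,
        h3.not_gt, lt_self_iff_false, and_true, true_and, and_false, false_and, if_true, if_false, and_self]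
       ring)
    | (subst h1
       simp only [h2, h3, h2.ne, h3.ne, h2.ne', h3.ne', h2.not_gt,
        h3.not_gt, lt_self_iff_false, and_true, true_and, and_false, false_and, if_true, if_false, and_self]
       ring)
    | (subst h2
       simp only [h1, h3, h1.ne, h3.ne, h1.ne', h3.ne', h1.not_gt,
        h3.not_gt, lt_self_iff_false, and_true, true_and, and_false, false_and, if_true, if_false, and_self]
       ring)
    | (subst h3
       simp only [h1, h2, h1.ne, h2.ne, h1.ne', h2.ne', h1.not_gt,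
        h2.not_gt, lt_self_iff_false, and_true, true_and, and_false, false_and, if_true, if_false, and_self]
       ring)
    | (subst h1
       subst h2
       simp only [lt_self_iff_false, and_true, true_and, and_false, false_and, if_true, if_false, and_self]
       ring)

/-! ### Consequences of `S_zb` -/

/-- a simple special case -/
theorem zb' (hzb : S_zb.{u}) {n : ℕ} (N : Fin (n + 1) → Fin (n + 1) → Fin (n + 1) → F)
    (κ a b c v' v : F) (hκ : κ ≠ 0)
    (h1 : ∀ i j k : Fin n, N i.succ j.succ k.succ = if i = j ∧ j = k then κ else 0)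
    (h2 : ∀ j k : Fin n, N 0 j.succ k.succ = if j = k then a else 0)
    (h3 : ∀ i k : Fin n, N i.succ 0 k.succ = if i = k then b else 0)
    (h4 : ∀ i j : Fin n, N i.succ j.succ 0 = if i = j then c else 0)
    (h5 : ∀ i : Fin n, N i.succ 0 0 = 0) (h6 : ∀ j : Fin n, N 0 j.succ 0 = 0)
    (h7 : ∀ k : Fin n, N 0 0 k.succ = v') (h8 : N 0 0 0 = v)
    (hb : b ≠ 0 ∨ v' = 0) (hs : SL N (n + 1)) : v = 0 := by
  obtain ⟨τ, μ, ν, ω, hμ, hν, hω, -, -, -, e1, -, -, e4⟩ :=
    hzb F n N (fun _ => κ) (fun _ => hκ) h1 hs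
  have hμν : ∀ i, μ i * ν i = 0 := by
    intro i
    by_cases h : τ i = 0
    · rw [hν i (by rw [h]; decide), mul_zero]
    · rw [hμ i h, zero_mul]
  have hμω : ∀ i, μ i * ω i = 0 := by
    intro i
    by_cases h : τ i = 0
    · rw [hω i (by rw [h]; decide), mul_zero]
    · rw [hμ i h, zero_mul]
  have hνω : ∀ i, ν i * ω i = 0 := by
    intro i
    by_cases h : τ i = 1
    · rw [hω i (by rw [h]; decide), mul_zero]
    · rw [hν i h, zero_mul]
  have s1 : ∑ j, ∑ k, ν j * ω k * N 0 j.succ k.succ = 0 := by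
    apply Finset.sum_eq_zero
    intro j _
    apply Finset.sum_eq_zero
    intro k _
    rw [h2]
    split_ifs with h
    · rw [h, hνω, zero_mul]
    · rw [mul_zero]
  have s2 : ∑ i, ∑ k, μ i * ω k * N i.succ 0 k.succ = 0 := by
    apply Finset.sum_eq_zero
    intro j _
    apply Finset.sum_eq_zero
    intro k _
    rw [h3]
    split_ifs with h
    · rw [h, hμω, zero_mul]
    · rw [mul_zero]
  have s3 : ∑ i, ∑ j, μ i * ν j * N i.succ j.succ 0 = 0 := by
    apply Finset.sum_eq_zero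
    intro j _
    apply Finset.sum_eq_zero
    intro k _
    rw [h4]
    split_ifs with h
    · rw [h, hμν, zero_mul]
    · rw [mul_zero]
  have s4 : ∑ i, μ i * N i.succ 0 0 = 0 := by
    apply Finset.sum_eq_zero
    intro j _
    rw [h5, mul_zero]
  have s5 : ∑ j, ν j * N 0 j.succ 0 = 0 := by
    apply Finset.sum_eq_zero
    intro j _
    rw [h6, mul_zero]
  rw [s1, s2, s3, s4, s5, h8] at e4
  have s6 : ∑ k, ω k * N 0 0 k.succ = 0 := by
    rcases hb with hb | hb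
    · have hω0 : ∀ i, ω i = 0 := by
        intro i
        by_cases h : τ i = 2
        · have e := e1 i (by rw [h]; decide)
          have t1 : ∑ k, ω k * N i.succ 0 k.succ = ω i * b := by
            rw [Finset.sum_eq_single i]
            · rw [h3, if_pos rfl]
            · intro k _ hk
              rw [h3, if_neg (Ne.symm hk), mul_zero]
            · intro hi
              exact absurd (Finset.mem_univ i) hi
          have t2 : ∑ j, ν j * N i.succ j.succ 0 = 0 := by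
            apply Finset.sum_eq_zero
            intro j _
            rw [h4]
            split_ifs with hij
            · rw [← hij, hν i (by rw [h]; decide), zero_mul]
            · rw [mul_zero]
          rw [h5, t1, t2] at e
          have e' : ω i * b = 0 := by linear_combination e
          exact (mul_eq_zero.1 e').resolve_right hb
        · exact hω i h
      apply Finset.sum_eq_zero
      intro j _
      rw [hω0, zero_mul]
    · apply Finset.sum_eq_zero
      intro j _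
      rw [h7, hb, mul_zero]
  rw [s6] at e4
  linear_combination e4

/-! ### New rows -/

theorem sum_row {m : ℕ} (i s : Fin m) (ε : F) (G : Fin m → F) :
    ∑ x, ((if x = i then 1 else 0) - ε * (if x = s then 1 else 0)) * G x = G i - ε * G s := by
  have h : ∀ x, ((if x = i then 1 else 0) - ε * (if x = s then 1 else 0)) * G x =
      (if x = i then G x else 0) - ε * (if x = s then G x else 0) := by
    intro x
    split_ifs <;> ring
  rw [Finset.sum_congr rfl fun x _ => h x, Finset.sum_sub_distrib, ← Finset.mul_sum,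
    Finset.sum_ite_eq' Finset.univ i, Finset.sum_ite_eq' Finset.univ s, if_pos (Finset.mem_univ _),
    if_pos (Finset.mem_univ _)]

/-- passing to differences of rows -/
theorem rows (hdf : S_df.{u}) {m k : ℕ} (T : Fin m → Fin m → Fin m → F) (hT : SL T k)
    (s t r : Fin m → Fin m) (ε δ η : Fin m → F) :
    SL (fun i j l =>
      (((T i j l - η l * T i j (r l)) - δ j * (T i (t j) l - η l * T i (t j) (r l))) -
      ε i * ((T (s i) j l - η l * T (s i) j (r l)) -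
        δ j * (T (s i) (t j) l - η l * T (s i) (t j) (r l))))) k := by
  have h := hdf F m T (fun i x => (if x = i then 1 else 0) - ε i * (if x = s i then 1 else 0))
    (fun i x => (if x = i then 1 else 0) - δ i * (if x = t i then 1 else 0))
    (fun i x => (if x = i then 1 else 0) - η i * (if x = r i then 1 else 0)) k hT
  refine cast ?_ h
  congr 1
  funext i j l
  have e1 : ∀ x y : Fin m, ∑ z, ((if x = i then 1 else 0) - ε i * (if x = s i then 1 else 0)) *
      ((if y = j then 1 else 0) - δ j * (if y = t j then 1 else 0)) *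
      ((if z = l then 1 else 0) - η l * (if z = r l then 1 else 0)) * T x y z =
      ((if x = i then 1 else 0) - ε i * (if x = s i then 1 else 0)) *
      (((if y = j then 1 else 0) - δ j * (if y = t j then 1 else 0)) *
        (T x y l - η l * T x y (r l))) := by
    intro x y
    rw [← sum_row l (r l) (η l) (fun z => T x y z), Finset.mul_sum, Finset.mul_sum]
    refine Finset.sum_congr rfl fun z _ => ?_
    ring
  have e2 : ∀ x : Fin m, ∑ y, ((if x = i then 1 else 0) - ε i * (if x = s i then 1 else 0)) *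
      (((if y = j then 1 else 0) - δ j * (if y = t j then 1 else 0)) *
        (T x y l - η l * T x y (r l))) =
      ((if x = i then 1 else 0) - ε i * (if x = s i then 1 else 0)) *
      ((T x j l - η l * T x j (r l)) - δ j * (T x (t j) l - η l * T x (t j) (r l))) := by
    intro x
    rw [← sum_row j (t j) (δ j) (fun y => T x y l - η l * T x y (r l)), Finset.mul_sum]
  rw [Finset.sum_congr rfl fun x _ => Finset.sum_congr rfl fun y _ => e1 x y,
    Finset.sum_congr rfl fun x _ => e2 x, sum_row]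

/-! ### Values -/

theorem ind_t {p : Prop} [Decidable p] (h : p) : ind F p = 1 := if_pos h

theorem ind_f {p : Prop} [Decidable p] (h : ¬ p) : ind F p = 0 := if_neg h

theorem TII_ne (e a b c a' b' c' α β γ d : F) {x y z : ℤ} (h1 : x ≠ y) (h2 : x ≠ z) :
    TII e a b c a' b' c' α β γ d x y z = e + a * ind F (y < z) + a' * ind F (y = z) +
      b * ind F (x < z) + c * ind F (x < y) + α * (ind F (x < y) * ind F (y = z)) := by
  unfold TII
  rw [ind_f h1, ind_f h2, ind_f (fun h : y < x ∧ x = z => h2 h.2), ind_f (fun h : z < x ∧ x = y => h1 h.2),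
    ind_f (fun h : x = y ∧ y = z => h1 h.1)]
  have h3 : ind F (x < y ∧ y = z) = ind F (x < y) * ind F (y = z) := by
    unfold ind
    by_cases h4 : x < y <;> by_cases h5 : y = z <;> simp [h4, h5]
  rw [h3]
  ring

/-- the difference of two steps -/
def dl (F : Type u) [Field F] (i : ℕ) (y : ℤ) : F :=
  ind F (3 * (i : ℤ) + 2 < y) - ind F (3 * (i : ℤ) + 5 < y)

theorem dl_S (i j : ℕ) : dl F i (3 * (j : ℤ) + 3) = if i = j then 1 else 0 := by
  unfold dl ind
  split_ifs <;> first | (exfalso; omega) | ring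

theorem dl_lo (i : ℕ) {y : ℤ} (hy : y < 0) : dl F i y = 0 := by
  unfold dl
  rw [ind_f (by omega), ind_f (by omega), sub_zero]

theorem dl_hi (i n : ℕ) (hi : i < n) {y : ℤ} (hy : 3 * (n : ℤ) + 5 < y) : dl F i y = 0 := by
  unfold dl
  rw [ind_t (by omega), ind_t (by omega), sub_self]

theorem fd (e a b c a' b' c' α β γ d : F) (i : ℕ) {y z : ℤ} (h1 : 3 * (i : ℤ) + 2 ≠ y)
    (h2 : 3 * (i : ℤ) + 2 ≠ z) (h3 : 3 * (i : ℤ) + 5 ≠ y) (h4 : 3 * (i : ℤ) + 5 ≠ z) :
    TII e a b c a' b' c' α β γ d (3 * (i : ℤ) + 2) y z -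
      TII e a b c a' b' c' α β γ d (3 * (i : ℤ) + 5) y z =
      b * dl F i z + c * dl F i y + α * (dl F i y * ind F (y = z)) := by
  rw [TII_ne e a b c a' b' c' α β γ d h1 h2, TII_ne e a b c a' b' c' α β γ d h3 h4]
  unfold dl
  ring

/-- the positions of the first kind -/
def px (n : ℕ) : Fin (n + 1) → ℤ := Fin.cons (3 * (n : ℤ) + 2) (fun i : Fin n => 3 * ((i : ℕ) : ℤ) + 2)

/-- the positions of the second and third kind -/
def py (n : ℕ) (y : ℤ) : Fin (n + 1) → ℤ := Fin.cons y (fun i : Fin n => 3 * ((i : ℕ) : ℤ) + 3)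

/-- the next row -/
def nx (n : ℕ) : Fin (n + 1) → Fin (n + 1) :=
  Fin.cons 0 (fun i : Fin n => if h : (i : ℕ) + 1 < n then (⟨(i : ℕ) + 1, h⟩ : Fin n).succ else 0)

/-- the sign -/
def sg (F : Type u) [Field F] (n : ℕ) : Fin (n + 1) → F := Fin.cons 0 (fun _ : Fin n => 1)

theorem px_zero (n : ℕ) : px n 0 = 3 * (n : ℤ) + 2 := rfl
theorem px_succ (n : ℕ) (i : Fin n) : px n i.succ = 3 * ((i : ℕ) : ℤ) + 2 := rfl
theorem py_zero (n : ℕ) (y : ℤ) : py n y 0 = y := rfl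
theorem py_succ (n : ℕ) (y : ℤ) (i : Fin n) : py n y i.succ = 3 * ((i : ℕ) : ℤ) + 3 := rfl
theorem sg_zero (n : ℕ) : sg F n 0 = 0 := rfl
theorem sg_succ (n : ℕ) (i : Fin n) : sg F n i.succ = 1 := rfl

theorem px_nx (n : ℕ) (i : Fin n) : px n (nx n i.succ) = 3 * ((i : ℕ) : ℤ) + 5 := by
  have h0 : nx n i.succ = if h : (i : ℕ) + 1 < n then (⟨(i : ℕ) + 1, h⟩ : Fin n).succ else 0 := rfl
  rw [h0]
  split_ifs with h
  · rw [px_succ]
    push_cast
    ring
  · rw [px_zero]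
    have := i.2
    have h2 : n = (i : ℕ) + 1 := by omega
    have h3 : (n : ℤ) = ((i : ℕ) : ℤ) + 1 := by exact_mod_cast h2
    rw [h3]
    ring

section conf

variable (e a b c a' b' c' α β γ d : F) (n : ℕ) (y₀ z₀ : ℤ)

/-- the tensor of differences -/
def NN : Fin (n + 1) → Fin (n + 1) → Fin (n + 1) → F := fun i j l =>
  (((TII e a b c a' b' c' α β γ d (px n i) (py n y₀ j) (py n z₀ l) -
      sg F n l * TII e a b c a' b' c' α β γ d (px n i) (py n y₀ j) (py n z₀ 0)) -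
    sg F n j * (TII e a b c a' b' c' α β γ d (px n i) (py n y₀ 0) (py n z₀ l) -
      sg F n l * TII e a b c a' b' c' α β γ d (px n i) (py n y₀ 0) (py n z₀ 0))) -
    sg F n i * ((TII e a b c a' b' c' α β γ d (px n (nx n i)) (py n y₀ j) (py n z₀ l) -
      sg F n l * TII e a b c a' b' c' α β γ d (px n (nx n i)) (py n y₀ j) (py n z₀ 0)) -
    sg F n j * (TII e a b c a' b' c' α β γ d (px n (nx n i)) (py n y₀ 0) (py n z₀ l) -
      sg F n l * TII e a b c a' b' c' α β γ d (px n (nx n i)) (py n y₀ 0) (py n z₀ 0))))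

theorem SL_NN (hdf : S_df.{u}) (h : ¬ FM (TII e a b c a' b' c' α β γ d) (n + 1)) :
    SL (NN e a b c a' b' c' α β γ d n y₀ z₀) (n + 1) := by
  have h1 : SL (fun i j k => TII e a b c a' b' c' α β γ d (px n i) (py n y₀ j) (py n z₀ k)) (n + 1) := by
    by_contra hc
    exact h ⟨px n, py n y₀, py n z₀, hc⟩
  exact rows hdf _ h1 (nx n) (fun _ => 0) (fun _ => 0) (sg F n) (sg F n) (sg F n)

variable {y₀ z₀}

theorem NN_sss (i j k : Fin n) (hy : ∀ m : ℕ, m ≤ n → 3 * (m : ℤ) + 2 ≠ y₀)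
    (hz : ∀ m : ℕ, m ≤ n → 3 * (m : ℤ) + 2 ≠ z₀) (hdy : dl F i y₀ = 0) (hdz : dl F i z₀ = 0)
    (hz' : 3 * ((j : ℕ) : ℤ) + 3 ≠ z₀) :
    NN e a b c a' b' c' α β γ d n y₀ z₀ i.succ j.succ k.succ = if i = j ∧ j = k then α else 0 := by
  unfold NN
  rw [px_nx]
  simp only [sg_succ, px_succ, py_zero, py_succ, one_mul]
  have hy1 := hy i i.2.le
  have hz1 := hz i i.2.le
  have hy2 := hy (i + 1) i.2
  have hz2 := hz (i + 1) i.2
  push_cast at hy2 hz2
  have f1 := fd e a b c a' b' c' α β γ d i (y := 3 * ((j : ℕ) : ℤ) + 3) (z := 3 * ((k : ℕ) : ℤ) + 3)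
    (by omega) (by omega) (by omega) (by omega)
  have f2 := fd e a b c a' b' c' α β γ d i (y := 3 * ((j : ℕ) : ℤ) + 3) (z := z₀)
    (by omega) (by omega) (by omega) (by omega)
  have f3 := fd e a b c a' b' c' α β γ d i (y := y₀) (z := 3 * ((k : ℕ) : ℤ) + 3)
    (by omega) (by omega) (by omega) (by omega)
  have f4 := fd e a b c a' b' c' α β γ d i (y := y₀) (z := z₀)
    (by omega) (by omega) (by omega) (by omega)
  rw [hdy, hdz] at *
  rw [ind_f hz'] at f2
  rw [dl_S, dl_S] at f1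
  rw [dl_S] at f2 f3
  have e1 : (if i = j ∧ j = k then α else 0) = α * ((if (i : ℕ) = j then 1 else 0) *
      ind F (3 * ((j : ℕ) : ℤ) + 3 = 3 * ((k : ℕ) : ℤ) + 3)) := by
    by_cases h1 : i = j
    · by_cases h2 : j = k
      · rw [if_pos ⟨h1, h2⟩, if_pos (congrArg Fin.val h1), ind_t (by rw [h2])]
        ring
      · rw [if_neg (fun h => h2 h.2), ind_f (fun h => h2 (Fin.ext (by omega)))]
        ring
    · rw [if_neg (fun h => h1 h.1), if_neg (fun h => h1 (Fin.ext h))]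
      ring
  rw [e1]
  linear_combination f1 - f2 - f3 + f4

theorem NN_s0s (i k : Fin n) (hy : ∀ m : ℕ, m ≤ n → 3 * (m : ℤ) + 2 ≠ y₀)
    (hz : ∀ m : ℕ, m ≤ n → 3 * (m : ℤ) + 2 ≠ z₀) (hdy : dl F i y₀ = 0) (hdz : dl F i z₀ = 0) :
    NN e a b c a' b' c' α β γ d n y₀ z₀ i.succ 0 k.succ = if i = k then b else 0 := by
  unfold NN
  rw [px_nx]
  simp only [sg_succ, sg_zero, px_succ, py_zero, py_succ, one_mul, zero_mul, sub_zero]
  have hy1 := hy i i.2.le
  have hz1 := hz i i.2.le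
  have hy2 := hy (i + 1) i.2
  have hz2 := hz (i + 1) i.2
  push_cast at hy2 hz2
  have f3 := fd e a b c a' b' c' α β γ d i (y := y₀) (z := 3 * ((k : ℕ) : ℤ) + 3)
    (by omega) (by omega) (by omega) (by omega)
  have f4 := fd e a b c a' b' c' α β γ d i (y := y₀) (z := z₀)
    (by omega) (by omega) (by omega) (by omega)
  rw [hdy, hdz] at *
  rw [dl_S] at f3
  have e1 : (if i = k then b else 0) = b * (if (i : ℕ) = k then 1 else 0) := by
    by_cases h1 : i = k
    · rw [if_pos h1, if_pos (congrArg Fin.val h1), mul_one]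
    · rw [if_neg h1, if_neg (fun h => h1 (Fin.ext h)), mul_zero]
  rw [e1]
  linear_combination f3 - f4

theorem NN_ss0 (i j : Fin n) (hy : ∀ m : ℕ, m ≤ n → 3 * (m : ℤ) + 2 ≠ y₀)
    (hz : ∀ m : ℕ, m ≤ n → 3 * (m : ℤ) + 2 ≠ z₀) (hdy : dl F i y₀ = 0) (hdz : dl F i z₀ = 0)
    (hz' : 3 * ((j : ℕ) : ℤ) + 3 ≠ z₀) :
    NN e a b c a' b' c' α β γ d n y₀ z₀ i.succ j.succ 0 = if i = j then c else 0 := by
  unfold NN
  rw [px_nx]
  simp only [sg_succ, sg_zero, px_succ, py_zero, py_succ, one_mul, zero_mul, sub_zero]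
  have hy1 := hy i i.2.le
  have hz1 := hz i i.2.le
  have hy2 := hy (i + 1) i.2
  have hz2 := hz (i + 1) i.2
  push_cast at hy2 hz2
  have f2 := fd e a b c a' b' c' α β γ d i (y := 3 * ((j : ℕ) : ℤ) + 3) (z := z₀)
    (by omega) (by omega) (by omega) (by omega)
  have f4 := fd e a b c a' b' c' α β γ d i (y := y₀) (z := z₀)
    (by omega) (by omega) (by omega) (by omega)
  rw [hdy, hdz] at *
  rw [ind_f hz', dl_S] at f2
  have e1 : (if i = j then c else 0) = c * (if (i : ℕ) = j then 1 else 0) := by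
    by_cases h1 : i = j
    · rw [if_pos h1, if_pos (congrArg Fin.val h1), mul_one]
    · rw [if_neg h1, if_neg (fun h => h1 (Fin.ext h)), mul_zero]
  rw [e1]
  linear_combination f2 - f4

theorem NN_s00 (i : Fin n) (hy : ∀ m : ℕ, m ≤ n → 3 * (m : ℤ) + 2 ≠ y₀)
    (hz : ∀ m : ℕ, m ≤ n → 3 * (m : ℤ) + 2 ≠ z₀) (hdy : dl F i y₀ = 0) (hdz : dl F i z₀ = 0) :
    NN e a b c a' b' c' α β γ d n y₀ z₀ i.succ 0 0 = 0 := by
  unfold NN
  rw [px_nx]
  simp only [sg_succ, sg_zero, px_succ, py_zero, py_succ, one_mul, zero_mul, sub_zero]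
  have hy1 := hy i i.2.le
  have hz1 := hz i i.2.le
  have hy2 := hy (i + 1) i.2
  have hz2 := hz (i + 1) i.2
  push_cast at hy2 hz2
  have f4 := fd e a b c a' b' c' α β γ d i (y := y₀) (z := z₀)
    (by omega) (by omega) (by omega) (by omega)
  rw [hdy, hdz] at f4
  linear_combination f4

theorem NN_0ss (j k : Fin n) :
    NN e a b c a' b' c' α β γ d n y₀ z₀ 0 j.succ k.succ =
      (TII e a b c a' b' c' α β γ d (3 * (n : ℤ) + 2) (3 * ((j : ℕ) : ℤ) + 3) (3 * ((k : ℕ) : ℤ) + 3) -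
        TII e a b c a' b' c' α β γ d (3 * (n : ℤ) + 2) (3 * ((j : ℕ) : ℤ) + 3) z₀) -
      (TII e a b c a' b' c' α β γ d (3 * (n : ℤ) + 2) y₀ (3 * ((k : ℕ) : ℤ) + 3) -
        TII e a b c a' b' c' α β γ d (3 * (n : ℤ) + 2) y₀ z₀) := by
  unfold NN
  simp only [sg_succ, sg_zero, px_zero, py_zero, py_succ, one_mul, zero_mul, sub_zero]

theorem NN_0s0 (j : Fin n) :
    NN e a b c a' b' c' α β γ d n y₀ z₀ 0 j.succ 0 =
      TII e a b c a' b' c' α β γ d (3 * (n : ℤ) + 2) (3 * ((j : ℕ) : ℤ) + 3) z₀ -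
        TII e a b c a' b' c' α β γ d (3 * (n : ℤ) + 2) y₀ z₀ := by
  unfold NN
  simp only [sg_succ, sg_zero, px_zero, py_zero, py_succ, one_mul, zero_mul, sub_zero]

theorem NN_00s (k : Fin n) :
    NN e a b c a' b' c' α β γ d n y₀ z₀ 0 0 k.succ =
      TII e a b c a' b' c' α β γ d (3 * (n : ℤ) + 2) y₀ (3 * ((k : ℕ) : ℤ) + 3) -
        TII e a b c a' b' c' α β γ d (3 * (n : ℤ) + 2) y₀ z₀ := by
  unfold NN
  simp only [sg_succ, sg_zero, px_zero, py_zero, py_succ, one_mul, zero_mul, sub_zero]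

theorem NN_000 :
    NN e a b c a' b' c' α β γ d n y₀ z₀ 0 0 0 =
      TII e a b c a' b' c' α β γ d (3 * (n : ℤ) + 2) y₀ z₀ := by
  unfold NN
  simp only [sg_succ, sg_zero, px_zero, py_zero, py_succ, one_mul, zero_mul, sub_zero]

end conf

variable (e a b c a' b' c' α β γ d : F) (n : ℕ)

/-- (1) -/
theorem conf1 (hdf : S_df.{u}) (hnf : S_nf.{u}) (hα : α ≠ 0) (hn : 2 ≤ n)
    (h : ¬ FM (TII e a b c a' b' c' α β γ d) (n + 1)) : e + a = 0 := by
  have hs := SL_NN e a b c a' b' c' α β γ d n (-2) (-1) hdf h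
  have hy : ∀ m : ℕ, m ≤ n → 3 * (m : ℤ) + 2 ≠ -2 := by intro m _; omega
  have hz : ∀ m : ℕ, m ≤ n → 3 * (m : ℤ) + 2 ≠ -1 := by intro m _; omega
  have hT : ∀ y z : ℤ, y < 3 * (n : ℤ) + 2 → z < 3 * (n : ℤ) + 2 →
      TII e a b c a' b' c' α β γ d (3 * (n : ℤ) + 2) y z = e + a * ind F (y < z) + a' * ind F (y = z) := by
    intro y z h1 h2
    rw [TII_ne _ _ _ _ _ _ _ _ _ _ _ h1.ne' h2.ne', ind_f h2.not_gt, ind_f h1.not_gt]
    ring
  have hS : ∀ j : Fin n, 3 * ((j : ℕ) : ℤ) + 3 < 3 * (n : ℤ) + 2 := by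
    intro j
    have := j.2
    omega
  refine hnf F n _ α a b c a' (e + a) hn hα
    (fun i j k => NN_sss e a b c a' b' c' α β γ d n i j k hy hz (dl_lo _ (by norm_num))
      (dl_lo _ (by norm_num)) (by omega)) ?_
    (fun i k => NN_s0s e a b c a' b' c' α β γ d n i k hy hz (dl_lo _ (by norm_num))
      (dl_lo _ (by norm_num)))
    (fun i j => NN_ss0 e a b c a' b' c' α β γ d n i j hy hz (dl_lo _ (by norm_num))
      (dl_lo _ (by norm_num)) (by omega))
    (fun i => NN_s00 e a b c a' b' c' α β γ d n i hy hz (dl_lo _ (by norm_num))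
      (dl_lo _ (by norm_num))) ?_ ?_ ?_ hs
  · intro j k
    rw [NN_0ss, hT _ _ (hS j) (hS k), hT _ _ (hS j) (by omega), hT _ _ (by omega) (hS k),
      hT _ _ (by omega) (by omega)]
    rw [ind_f (show ¬ (3 * ((j : ℕ) : ℤ) + 3 < -1) by omega),
      ind_f (show ¬ (3 * ((j : ℕ) : ℤ) + 3 = -1) by omega),
      ind_t (show (-2 : ℤ) < 3 * ((k : ℕ) : ℤ) + 3 by omega),
      ind_f (show ¬ ((-2 : ℤ) = 3 * ((k : ℕ) : ℤ) + 3) by omega),
      ind_t (show (-2 : ℤ) < -1 by norm_num), ind_f (show ¬ ((-2 : ℤ) = -1) by norm_num)]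
    have e1 : ind F (3 * ((j : ℕ) : ℤ) + 3 < 3 * ((k : ℕ) : ℤ) + 3) = if j < k then 1 else 0 := by
      unfold ind
      by_cases h1 : j < k
      · rw [if_pos h1, if_pos (by have : (j : ℕ) < k := h1; omega)]
      · rw [if_neg h1, if_neg (fun h2 => h1 (show (j : ℕ) < k by omega))]
    have e2 : ind F (3 * ((j : ℕ) : ℤ) + 3 = 3 * ((k : ℕ) : ℤ) + 3) = if j = k then 1 else 0 := by
      unfold ind
      by_cases h1 : j = k
      · rw [if_pos h1, if_pos (by rw [h1])]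
      · rw [if_neg h1, if_neg (fun h2 => h1 (Fin.ext (by omega)))]
    rw [e1, e2]
    split_ifs <;> ring
  · intro j
    rw [NN_0s0, hT _ _ (hS j) (by omega), hT _ _ (by omega) (by omega)]
    rw [ind_f (show ¬ (3 * ((j : ℕ) : ℤ) + 3 < -1) by omega),
      ind_f (show ¬ (3 * ((j : ℕ) : ℤ) + 3 = -1) by omega),
      ind_t (show (-2 : ℤ) < -1 by norm_num), ind_f (show ¬ ((-2 : ℤ) = -1) by norm_num)]
    ring
  · intro k
    rw [NN_00s, hT _ _ (by omega) (hS k), hT _ _ (by omega) (by omega)]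
    rw [ind_t (show (-2 : ℤ) < 3 * ((k : ℕ) : ℤ) + 3 by omega),
      ind_f (show ¬ ((-2 : ℤ) = 3 * ((k : ℕ) : ℤ) + 3) by omega),
      ind_t (show (-2 : ℤ) < -1 by norm_num), ind_f (show ¬ ((-2 : ℤ) = -1) by norm_num)]
    ring
  · rw [NN_000, hT _ _ (by omega) (by omega), ind_t (show (-2 : ℤ) < -1 by norm_num),
      ind_f (show ¬ ((-2 : ℤ) = -1) by norm_num)]
    ring

/-- (3) -/
theorem conf3 (hdf : S_df.{u}) (hzb : S_zb.{u}) (hα : α ≠ 0) (hn : 2 ≤ n)
    (h : ¬ FM (TII 0 0 b c a' b' c' α β γ d) (n + 1)) : b = 0 := by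
  by_contra hb
  have hs := SL_NN 0 0 b c a' b' c' α β γ d n (-2) (3 * (n : ℤ) + 9) hdf h
  have hy : ∀ m : ℕ, m ≤ n → 3 * (m : ℤ) + 2 ≠ -2 := by intro m _; omega
  have hz : ∀ m : ℕ, m ≤ n → 3 * (m : ℤ) + 2 ≠ 3 * (n : ℤ) + 9 := by intro m _; omega
  have hT : ∀ y z : ℤ, y < 3 * (n : ℤ) + 2 → 3 * (n : ℤ) + 2 ≠ z →
      TII 0 0 b c a' b' c' α β γ d (3 * (n : ℤ) + 2) y z =
        a' * ind F (y = z) + b * ind F (3 * (n : ℤ) + 2 < z) := by
    intro y z h1 h2
    rw [TII_ne _ _ _ _ _ _ _ _ _ _ _ h1.ne' h2, ind_f h1.not_gt]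
    ring
  have hS : ∀ j : Fin n, 3 * ((j : ℕ) : ℤ) + 3 < 3 * (n : ℤ) + 2 := by
    intro j
    have := j.2
    omega
  apply hb
  refine zb' hzb (NN 0 0 b c a' b' c' α β γ d n (-2) (3 * (n : ℤ) + 9)) α a' b c (-b) b hα
    (fun i j k => NN_sss 0 0 b c a' b' c' α β γ d n i j k hy hz (dl_lo _ (by norm_num))
      (dl_hi _ n i.2 (by omega)) (by have := hS j; omega)) ?_
    (fun i k => NN_s0s 0 0 b c a' b' c' α β γ d n i k hy hz (dl_lo _ (by norm_num))
      (dl_hi _ n i.2 (by omega)))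
    (fun i j => NN_ss0 0 0 b c a' b' c' α β γ d n i j hy hz (dl_lo _ (by norm_num))
      (dl_hi _ n i.2 (by omega)) (by have := hS j; omega))
    (fun i => NN_s00 0 0 b c a' b' c' α β γ d n i hy hz (dl_lo _ (by norm_num))
      (dl_hi _ n i.2 (by omega))) ?_ ?_ ?_ (Or.inl hb) hs
  · intro j k
    have hj := hS j
    have hk := hS k
    rw [NN_0ss, hT _ _ (hS j) hk.ne', hT _ _ (hS j) (by omega), hT _ _ (by omega) hk.ne',
      hT _ _ (by omega) (by omega)]
    rw [ind_f (show ¬ (3 * ((j : ℕ) : ℤ) + 3 = 3 * (n : ℤ) + 9) by omega),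
      ind_f (show ¬ ((-2 : ℤ) = 3 * ((k : ℕ) : ℤ) + 3) by omega),
      ind_f (show ¬ ((-2 : ℤ) = 3 * (n : ℤ) + 9) by omega)]
    have e2 : ind F (3 * ((j : ℕ) : ℤ) + 3 = 3 * ((k : ℕ) : ℤ) + 3) = if j = k then 1 else 0 := by
      unfold ind
      by_cases h1 : j = k
      · rw [if_pos h1, if_pos (by rw [h1])]
      · rw [if_neg h1, if_neg (fun h2 => h1 (Fin.ext (by omega)))]
    rw [e2]
    split_ifs <;> ring
  · intro j
    have hj := hS j
    rw [NN_0s0, hT _ _ (hS j) (by omega), hT _ _ (by omega) (by omega)]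
    rw [ind_f (show ¬ (3 * ((j : ℕ) : ℤ) + 3 = 3 * (n : ℤ) + 9) by omega),
      ind_f (show ¬ ((-2 : ℤ) = 3 * (n : ℤ) + 9) by omega)]
    ring
  · intro k
    have hk := hS k
    rw [NN_00s, hT _ _ (by omega) hk.ne', hT _ _ (by omega) (by omega)]
    rw [ind_f (show ¬ ((-2 : ℤ) = 3 * ((k : ℕ) : ℤ) + 3) by omega),
      ind_f (show ¬ ((-2 : ℤ) = 3 * (n : ℤ) + 9) by omega), ind_f hk.not_gt,
      ind_t (show 3 * (n : ℤ) + 2 < 3 * (n : ℤ) + 9 by omega)]
    ring
  · rw [NN_000, hT _ _ (by omega) (by omega), ind_f (show ¬ ((-2 : ℤ) = 3 * (n : ℤ) + 9) by omega),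
      ind_t (show 3 * (n : ℤ) + 2 < 3 * (n : ℤ) + 9 by omega)]
    ring

/-- (5) -/
theorem conf5 (hdf : S_df.{u}) (hzb : S_zb.{u}) (hα : α ≠ 0)
    (h : ¬ FM (TII 0 0 0 0 a' b' c' α β γ d) (n + 1)) : a' + α = 0 := by
  have h1 : SL (fun i j k => TII 0 0 0 0 a' b' c' α β γ d (px n i) (py n (3 * (n : ℤ) + 3) j)
      (py n (3 * (n : ℤ) + 3) k)) (n + 1) := by
    by_contra hc
    exact h ⟨_, _, _, hc⟩
  have hs := rows hdf _ h1 (nx n) (fun _ => 0) (fun _ => 0) (sg F n) (fun _ => 0) (fun _ => 0)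
  have hT : ∀ y z : ℤ, 3 * (n : ℤ) + 2 ≠ y → 3 * (n : ℤ) + 2 ≠ z →
      TII 0 0 0 0 a' b' c' α β γ d (3 * (n : ℤ) + 2) y z =
        a' * ind F (y = z) + α * (ind F (3 * (n : ℤ) + 2 < y) * ind F (y = z)) := by
    intro y z h1 h2
    rw [TII_ne _ _ _ _ _ _ _ _ _ _ _ h1 h2]
    ring
  have hS : ∀ j : Fin n, 3 * ((j : ℕ) : ℤ) + 3 < 3 * (n : ℤ) + 2 := by
    intro j
    have := j.2
    omega
  have hX : ∀ (i : Fin n) (y z : ℤ), (∃ m : ℕ, y = 3 * (m : ℤ) + 3) → (∃ m : ℕ, z = 3 * (m : ℤ) + 3) →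
      TII 0 0 0 0 a' b' c' α β γ d (3 * ((i : ℕ) : ℤ) + 2) y z -
      TII 0 0 0 0 a' b' c' α β γ d (3 * ((i : ℕ) : ℤ) + 5) y z = α * (dl F i y * ind F (y = z)) := by
    rintro i y z ⟨m, rfl⟩ ⟨m', rfl⟩
    rw [fd 0 0 0 0 a' b' c' α β γ d i (by omega) (by omega) (by omega) (by omega)]
    ring
  have hd0 : ∀ i : Fin n, dl F i (3 * (n : ℤ) + 3) = 0 := by
    intro i
    rw [dl_S, if_neg i.2.ne]
  refine zb' hzb _ α a' 0 0 0 (a' + α) hα ?_ ?_ ?_ ?_ ?_ ?_ ?_ ?_ (Or.inr rfl) hs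
  · intro i j k
    simp only [zero_mul, sub_zero, sg_succ, one_mul, px_succ, px_nx, py_succ]
    rw [hX i _ _ ⟨j, rfl⟩ ⟨k, rfl⟩, dl_S]
    by_cases h1 : i = j
    · by_cases h2 : j = k
      · rw [if_pos (congrArg Fin.val h1), if_pos ⟨h1, h2⟩, ind_t (by rw [h2])]
        ring
      · rw [ind_f (fun h => h2 (Fin.ext (by omega))), mul_zero, mul_zero, if_neg (fun h => h2 h.2)]
    · rw [if_neg (fun h => h1 (Fin.ext h)), zero_mul, mul_zero, if_neg (fun h => h1 h.1)]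
  · intro j k
    simp only [zero_mul, sub_zero, sg_zero, px_zero, py_succ]
    rw [hT _ _ (hS j).ne' (hS k).ne', ind_f (hS j).not_gt]
    by_cases h1 : j = k
    · rw [if_pos h1, ind_t (by rw [h1])]
      ring
    · rw [if_neg h1, ind_f (fun h => h1 (Fin.ext (by omega)))]
      ring
  · intro i k
    simp only [zero_mul, sub_zero, sg_succ, one_mul, px_succ, px_nx, py_succ, py_zero]
    rw [hX i _ _ ⟨n, rfl⟩ ⟨k, rfl⟩, hd0, ite_self]
    ring
  · intro i j
    simp only [zero_mul, sub_zero, sg_succ, one_mul, px_succ, px_nx, py_succ, py_zero]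
    have := hS j
    rw [hX i _ _ ⟨j, rfl⟩ ⟨n, rfl⟩, ite_self, ind_f (show ¬ (3 * ((j : ℕ) : ℤ) + 3 = 3 * (n : ℤ) + 3) by omega)]
    ring
  · intro i
    simp only [zero_mul, sub_zero, sg_succ, one_mul, px_succ, px_nx, py_succ, py_zero]
    rw [hX i _ _ ⟨n, rfl⟩ ⟨n, rfl⟩, hd0]
    ring
  · intro j
    have := hS j
    simp only [zero_mul, sub_zero, sg_zero, px_zero, py_succ, py_zero]
    rw [hT _ _ (hS j).ne' (by omega), ind_f (show ¬ (3 * ((j : ℕ) : ℤ) + 3 = 3 * (n : ℤ) + 3) by omega)]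
    ring
  · intro k
    have := hS k
    simp only [zero_mul, sub_zero, sg_zero, px_zero, py_succ, py_zero]
    rw [hT _ _ (by omega) (hS k).ne', ind_f (show ¬ (3 * (n : ℤ) + 3 = 3 * ((k : ℕ) : ℤ) + 3) by omega)]
    ring
  · simp only [zero_mul, sub_zero, sg_zero, px_zero, py_zero]
    rw [hT _ _ (by omega) (by omega), ind_t rfl, ind_t (show 3 * (n : ℤ) + 2 < 3 * (n : ℤ) + 3 by omega)]
    ring

/-- (6) -/
theorem conf6 (hdf : S_df.{u}) (hzb : S_zb.{u}) (hα : α ≠ 0)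
    (h : ¬ FM (TII 0 0 0 0 (-α) b' c' α β γ d) (n + 1)) : False := by
  have h1 : SL (fun i j k : Fin (n + 1) => TII 0 0 0 0 (-α) b' c' α β γ d (3 * ((i : ℕ) : ℤ) + 4)
      (3 * ((j : ℕ) : ℤ) + 3) (3 * ((k : ℕ) : ℤ) + 3)) (n + 1) := by
    by_contra hc
    exact h ⟨fun i => 3 * ((i : ℕ) : ℤ) + 4, fun i => 3 * ((i : ℕ) : ℤ) + 3,
      fun i => 3 * ((i : ℕ) : ℤ) + 3, hc⟩
  have hs := rows hdf _ h1 (Fin.cons 0 (fun i : Fin n => i.castSucc)) (fun _ => 0) (fun _ => 0) (sg F n)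
    (fun _ => 0) (fun _ => 0)
  have hT : ∀ i j k : ℕ, TII 0 0 0 0 (-α) b' c' α β γ d (3 * (i : ℤ) + 4) (3 * (j : ℤ) + 3)
      (3 * (k : ℤ) + 3) = if j ≤ i ∧ j = k then -α else 0 := by
    intro i j k
    rw [TII_ne _ _ _ _ _ _ _ _ _ _ _ (by omega) (by omega)]
    by_cases h1 : j = k
    · rw [ind_t (show 3 * (j : ℤ) + 3 = 3 * (k : ℤ) + 3 by rw [h1])]
      by_cases h2 : j ≤ i
      · rw [if_pos ⟨h2, h1⟩, ind_f (show ¬ (3 * (i : ℤ) + 4 < 3 * (j : ℤ) + 3) by omega)]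
        ring
      · rw [if_neg (fun h => h2 h.1), ind_t (show (3 * (i : ℤ) + 4 < 3 * (j : ℤ) + 3) by omega)]
        ring
    · rw [if_neg (fun h => h1 h.2), ind_f (show ¬ (3 * (j : ℤ) + 3 = 3 * (k : ℤ) + 3) by omega)]
      ring
  have hN : ∀ m j k : Fin (n + 1), (((TII 0 0 0 0 (-α) b' c' α β γ d (3 * ((m : ℕ) : ℤ) + 4)
      (3 * ((j : ℕ) : ℤ) + 3) (3 * ((k : ℕ) : ℤ) + 3) - 0 * TII 0 0 0 0 (-α) b' c' α β γ d
      (3 * ((m : ℕ) : ℤ) + 4) (3 * ((j : ℕ) : ℤ) + 3) (3 * (((0 : Fin (n + 1)) : ℕ) : ℤ) + 3)) -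
      0 * (TII 0 0 0 0 (-α) b' c' α β γ d (3 * ((m : ℕ) : ℤ) + 4)
      (3 * (((0 : Fin (n + 1)) : ℕ) : ℤ) + 3) (3 * ((k : ℕ) : ℤ) + 3) - 0 * TII 0 0 0 0 (-α) b' c' α β γ d
      (3 * ((m : ℕ) : ℤ) + 4) (3 * (((0 : Fin (n + 1)) : ℕ) : ℤ) + 3)
      (3 * (((0 : Fin (n + 1)) : ℕ) : ℤ) + 3))) - sg F n m *
      ((TII 0 0 0 0 (-α) b' c' α β γ d
      (3 * ((((Fin.cons 0 (fun i : Fin n => i.castSucc) : Fin (n + 1) → Fin (n + 1)) m : Fin (n + 1)) : ℕ) : ℤ) + 4)
      (3 * ((j : ℕ) : ℤ) + 3) (3 * ((k : ℕ) : ℤ) + 3) - 0 * TII 0 0 0 0 (-α) b' c' α β γ d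
      (3 * ((((Fin.cons 0 (fun i : Fin n => i.castSucc) : Fin (n + 1) → Fin (n + 1)) m : Fin (n + 1)) : ℕ) : ℤ) + 4)
      (3 * ((j : ℕ) : ℤ) + 3) (3 * (((0 : Fin (n + 1)) : ℕ) : ℤ) + 3)) -
      0 * (TII 0 0 0 0 (-α) b' c' α β γ d
      (3 * ((((Fin.cons 0 (fun i : Fin n => i.castSucc) : Fin (n + 1) → Fin (n + 1)) m : Fin (n + 1)) : ℕ) : ℤ) + 4)
      (3 * (((0 : Fin (n + 1)) : ℕ) : ℤ) + 3) (3 * ((k : ℕ) : ℤ) + 3) - 0 * TII 0 0 0 0 (-α) b' c' α β γ d
      (3 * ((((Fin.cons 0 (fun i : Fin n => i.castSucc) : Fin (n + 1) → Fin (n + 1)) m : Fin (n + 1)) : ℕ) : ℤ) + 4)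
      (3 * (((0 : Fin (n + 1)) : ℕ) : ℤ) + 3) (3 * (((0 : Fin (n + 1)) : ℕ) : ℤ) + 3)))) =
      if m = j ∧ j = k then -α else 0 := by
    intro m j k
    simp only [zero_mul, sub_zero]
    rw [hT, hT]
    refine Fin.cases ?_ (fun i => ?_) m
    · rw [sg_zero, zero_mul, sub_zero]
      by_cases h1 : (0 : Fin (n + 1)) = j ∧ j = k
      · rw [if_pos h1, if_pos ⟨by rw [← h1.1], congrArg Fin.val h1.2⟩]
      · rw [if_neg h1, if_neg]
        rintro ⟨h2, h3⟩
        apply h1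
        refine ⟨Fin.ext ?_, Fin.ext h3⟩
        have : ((0 : Fin (n + 1)) : ℕ) = 0 := rfl
        omega
    · rw [sg_succ, one_mul, Fin.cons_succ]
      have hv1 : ((i.succ : Fin (n + 1)) : ℕ) = (i : ℕ) + 1 := Fin.val_succ i
      have hv2 : ((i.castSucc : Fin (n + 1)) : ℕ) = (i : ℕ) := rfl
      rw [hv1, hv2]
      by_cases h3 : (j : ℕ) = k
      · by_cases h4 : (j : ℕ) ≤ i
        · rw [if_pos ⟨by omega, h3⟩, if_pos ⟨h4, h3⟩, if_neg, sub_self]
          rintro ⟨h5, _⟩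
          have := congrArg Fin.val h5
          omega
        · by_cases h5 : (j : ℕ) = i + 1
          · rw [if_pos ⟨by omega, h3⟩, if_neg (fun h => h4 h.1), if_pos ⟨Fin.ext (by omega), Fin.ext h3⟩]
            ring
          · rw [if_neg (fun h => by omega), if_neg (fun h => h4 h.1), if_neg, sub_zero]
            rintro ⟨h6, _⟩
            have := congrArg Fin.val h6
            omega
      · rw [if_neg (fun h => h3 h.2), if_neg (fun h => h3 h.2), if_neg (fun h => h3 (congrArg Fin.val h.2)),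
          sub_zero]
  have hne : ∀ i : Fin n, (0 : Fin (n + 1)) ≠ i.succ := fun i => (Fin.succ_ne_zero i).symm
  have hα' : -α ≠ 0 := neg_ne_zero.2 hα
  have := zb' hzb _ (-α) 0 0 0 0 (-α) hα' (fun i j k => ?_) (fun j k => ?_) (fun i k => ?_) (fun i j => ?_)
    (fun i => ?_) (fun j => ?_) (fun k => ?_) ?_ (Or.inr rfl) hs
  · exact hα' this
  · refine (hN _ _ _).trans ?_
    simp only [Fin.succ_inj]
  · refine (hN _ _ _).trans ?_
    rw [if_neg (fun h => hne j h.1), ite_self]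
  · refine (hN _ _ _).trans ?_
    rw [if_neg (fun h => hne k h.2), ite_self]
  · refine (hN _ _ _).trans ?_
    rw [if_neg (fun h => hne j h.2.symm), ite_self]
  · refine (hN _ _ _).trans ?_
    rw [if_neg (fun h => hne i h.1.symm)]
  · refine (hN _ _ _).trans ?_
    rw [if_neg (fun h => hne j h.1)]
  · refine (hN _ _ _).trans ?_
    rw [if_neg (fun h => hne k h.2)]
  · refine (hN _ _ _).trans ?_
    rw [if_pos ⟨rfl, rfl⟩]

end

theorem holds (h1 : S_zb.{u}) (h2 : S_nf.{u}) (h3 : S_df.{u}) : S_al.{u} := by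
  intro F _ e a b c a' b' c' α β γ d hα n hn
  by_contra hFM
  have hswap : ¬ FM (TII (e + a) (-a) c b (a' - a) c' b' α γ β d) (n + 1) := by
    intro h
    apply hFM
    apply FM_swapYZ
    rw [TII_swap]
    exact h
  have e1 := conf1 e a b c a' b' c' α β γ d n h3 h2 hα hn hFM
  have e2 := conf1 (e + a) (-a) c b (a' - a) c' b' α γ β d n h3 h2 hα hn hswap
  have he : e = 0 := by linear_combination e2
  have ha : a = 0 := by linear_combination e1 - he
  subst he
  subst ha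
  rw [add_zero, neg_zero, sub_zero] at hswap
  have hb := conf3 b c a' b' c' α β γ d n h3 h1 hα hn hFM
  have hc := conf3 c b a' c' b' α γ β d n h3 h1 hα hn hswap
  subst hb
  subst hc
  have h5 := conf5 a' b' c' α β γ d n h3 h1 hα hFM
  have h6 : a' = -α := by linear_combination h5
  subst h6
  exact conf6 b' c' α β γ d n h3 h1 hα hFM

end Pool.Agent.H79.FF_AL
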