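import Pool.Agent.H402.FF.Stm

/-!
# Project FF of helper402, part ULT: compactness of the space of triples of ultrafilters
-/

set_option autoImplicit false

open Topology Filter

namespace Pool.Agent.H79.FF_ULT

open Pool.Agent.H402.FF

theorem holds : S_ult := by
  classical
  intro X Y Z κ t D hN
  by_contra hcon
  push Not at hcon
  choose P hP Q hQ R hR hD using hcon
  let Ω := Ultrafilter X × Ultrafilter Y × Ultrafilter Z
  let U : Ω → Set Ω := fun τ =>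
    {τ' | P τ.1 τ.2.1 τ.2.2 ∈ τ'.1 ∧ Q τ.1 τ.2.1 τ.2.2 ∈ τ'.2.1 ∧ R τ.1 τ.2.1 τ.2.2 ∈ τ'.2.2}
  have hU : ∀ τ : Ω, U τ ∈ 𝓝 τ := by
    intro τ
    apply IsOpen.mem_nhds
    · have h1 : IsOpen {τ' : Ω | P τ.1 τ.2.1 τ.2.2 ∈ τ'.1} :=
        (ultrafilter_isOpen_basic (P τ.1 τ.2.1 τ.2.2)).preimage continuous_fst
      have h2 : IsOpen {τ' : Ω | Q τ.1 τ.2.1 τ.2.2 ∈ τ'.2.1} :=
        (ultrafilter_isOpen_basic (Q τ.1 τ.2.1 τ.2.2)).preimage (continuous_fst.comp continuous_snd)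
      have h3 : IsOpen {τ' : Ω | R τ.1 τ.2.1 τ.2.2 ∈ τ'.2.2} :=
        (ultrafilter_isOpen_basic (R τ.1 τ.2.1 τ.2.2)).preimage (continuous_snd.comp continuous_snd)
      exact h1.inter (h2.inter h3)
    · exact ⟨hP _ _ _, hQ _ _ _, hR _ _ _⟩
  obtain ⟨T, hT⟩ := CompactSpace.elim_nhds_subcover U hU
  let e := Fintype.equivFin (T → Bool)
  obtain ⟨x, y, z, hx, hy, hz, hDn⟩ := hN (Fintype.card (T → Bool))
    (fun a => e (fun i => decide (a ∈ P i.1.1 i.1.2.1 i.1.2.2)))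
    (fun a => e (fun i => decide (a ∈ Q i.1.1 i.1.2.1 i.1.2.2)))
    (fun a => e (fun i => decide (a ∈ R i.1.1 i.1.2.1 i.1.2.2)))
  have hx' := e.injective hx
  have hy' := e.injective hy
  have hz' := e.injective hz
  have hcov : ((pure (x true), pure (y true), pure (z true)) : Ω) ∈ ⋃ τ ∈ T, U τ := by
    rw [hT]
    exact Set.mem_univ _
  rw [Set.mem_iUnion₂] at hcov
  obtain ⟨τ, hτ, h1, h2, h3⟩ := hcov
  have h1' : x true ∈ P τ.1 τ.2.1 τ.2.2 := Ultrafilter.mem_pure.1 h1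
  have h2' : y true ∈ Q τ.1 τ.2.1 τ.2.2 := Ultrafilter.mem_pure.1 h2
  have h3' : z true ∈ R τ.1 τ.2.1 τ.2.2 := Ultrafilter.mem_pure.1 h3
  have k1 : x false ∈ P τ.1 τ.2.1 τ.2.2 := by
    have := congrFun hx' ⟨τ, hτ⟩
    simp only [decide_eq_decide] at this
    exact this.1 h1'
  have k2 : y false ∈ Q τ.1 τ.2.1 τ.2.2 := by
    have := congrFun hy' ⟨τ, hτ⟩
    simp only [decide_eq_decide] at this
    exact this.1 h2'
  have k3 : z false ∈ R τ.1 τ.2.1 τ.2.2 := by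
    have := congrFun hz' ⟨τ, hτ⟩
    simp only [decide_eq_decide] at this
    exact this.1 h3'
  apply hDn
  apply hD τ.1 τ.2.1 τ.2.2 x y z
  · intro s
    cases s
    · exact k1
    · exact h1'
  · intro s
    cases s
    · exact k2
    · exact h2'
  · intro s
    cases s
    · exact k3
    · exact h3'

end Pool.Agent.H79.FF_ULT
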