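import Pool.Agent.H666.TK.SpecC

/-!
# Gibbs' inequality (task TK C3 of helper666)
-/

set_option autoImplicit false

open Finset

namespace Pool.Agent.H79.TKC3

theorem gibbs : Pool.Agent.H666.TK.S_gibbs := by
  intro α β _ _ s π w hs hπ hπ1 hw hw1
  have hS : (0 : ℝ) < s.card := by
    exact_mod_cast hs.card_pos
  have key : ∀ v ∈ s, ∀ u : β, w v u * (Real.log (π v u) - Real.log (w v u)) + w v u * Real.log s.card ≤
      π v u * s.card - w v u := by
    intro v hv u
    have h1 := hπ v hv u
    have h2 := hw v hv u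
    have hy : 0 < π v u * s.card / w v u := by positivity
    have h3 := Real.log_le_sub_one_of_pos hy
    rw [Real.log_div (by positivity) h2.ne', Real.log_mul h1.ne' hS.ne'] at h3
    have h4 := mul_le_mul_of_nonneg_left h3 h2.le
    have h5 : w v u * (π v u * s.card / w v u - 1) = π v u * s.card - w v u := by
      field_simp
    rw [h5] at h4
    linarith
  have hsum : ∑ v ∈ s, ∑ u : β, (w v u * (Real.log (π v u) - Real.log (w v u)) + w v u * Real.log s.card) ≤
      ∑ v ∈ s, ∑ u : β, (π v u * s.card - w v u) :=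
    Finset.sum_le_sum fun v hv => Finset.sum_le_sum fun u _ => key v hv u
  have hL : ∑ v ∈ s, ∑ u : β, (w v u * (Real.log (π v u) - Real.log (w v u)) + w v u * Real.log s.card) =
      - ∑ v ∈ s, ∑ u : β, w v u * (Real.log (w v u) - Real.log (π v u)) +
        (s.card : ℝ) * (Fintype.card β : ℝ) * Real.log s.card := by
    rw [← Finset.sum_neg_distrib]
    have h1 : ∑ v ∈ s, (∑ u : β, w v u) * Real.log s.card =
        (s.card : ℝ) * (Fintype.card β : ℝ) * Real.log s.card := by
      rw [Finset.sum_congr rfl fun v hv => by rw [hw1 v hv], Finset.sum_const, nsmul_eq_mul]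
      ring
    rw [← h1, ← Finset.sum_add_distrib]
    refine Finset.sum_congr rfl fun v _ => ?_
    rw [Finset.sum_add_distrib, Finset.sum_mul, ← Finset.sum_neg_distrib]
    congr 1
    refine Finset.sum_congr rfl fun u _ => ?_
    ring
  have hR : ∑ v ∈ s, ∑ u : β, (π v u * s.card - w v u) ≤ 0 := by
    have h1 : ∑ v ∈ s, ∑ u : β, (π v u * s.card - w v u) =
        s.card * ∑ u : β, ∑ v ∈ s, π v u - s.card * (Fintype.card β : ℝ) := by
      have h2 : ∑ v ∈ s, ∑ u : β, w v u = s.card * (Fintype.card β : ℝ) := by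
        rw [Finset.sum_congr rfl fun v hv => hw1 v hv, Finset.sum_const, nsmul_eq_mul]
      rw [← h2, Finset.sum_comm (s := univ) (t := s), Finset.mul_sum, ← Finset.sum_sub_distrib]
      refine Finset.sum_congr rfl fun v _ => ?_
      rw [Finset.sum_sub_distrib, Finset.mul_sum]
      congr 1
      refine Finset.sum_congr rfl fun u _ => ?_
      ring
    have h3 : ∑ u : β, ∑ v ∈ s, π v u ≤ Fintype.card β := by
      calc ∑ u : β, ∑ v ∈ s, π v u ≤ ∑ _u : β, (1 : ℝ) := Finset.sum_le_sum fun u _ => hπ1 u
        _ = Fintype.card β := by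
          rw [Finset.sum_const, Finset.card_univ, nsmul_eq_mul, mul_one]
    rw [h1]
    have h4 := mul_le_mul_of_nonneg_left h3 hS.le
    linarith
  linarith

end Pool.Agent.H79.TKC3
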