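import Pool.Agent.H85.AK.Stmt

/-!
# S_growth: exponential growth of the number of digit sums
-/

set_option autoImplicit false

namespace Pool.Agent.H79.AKGrowth

open Finset
open Pool.Agent.H85.AK.Stmt

theorem geom_two (t : ℝ) (ht : 2 ≤ t) (n : ℕ) : ∑ i ∈ range n, t ^ i < t ^ n := by
  induction n with
  | zero => simp
  | succ n ih =>
    rw [sum_range_succ, pow_succ]
    have h : 0 < t ^ n := by positivity
    nlinarith

theorem geom_half (t : ℝ) (h0 : 0 ≤ t) (ht : t ≤ 1 / 2) (n : ℕ) : ∑ i ∈ range n, t ^ i < 2 := by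
  have h1 : ∀ n : ℕ, ∑ i ∈ range n, t ^ i ≤ 2 - (1 / 2) ^ n * 2 := by
    intro n
    induction n with
    | zero => simp
    | succ n ih =>
      rw [sum_range_succ, pow_succ]
      have h : t ^ n ≤ (1 / 2) ^ n := pow_le_pow_left₀ h0 ht n
      linarith
  have h2 := h1 n
  have h3 : (0 : ℝ) < (1 / 2) ^ n * 2 := by positivity
  linarith

theorem norm_dig (y : ℂ) (d : ℤ) (hd : |d| ≤ 1) (i : ℕ) : ‖(d : ℂ) * y ^ i‖ ≤ ‖y‖ ^ i := by
  rw [norm_mul, norm_pow, Complex.norm_intCast]
  have h1 : |(d : ℝ)| ≤ 1 := by exact_mod_cast hd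
  exact mul_le_of_le_one_left (by positivity) h1

theorem norm_sum (y : ℂ) (d : ℕ → ℤ) (hd : ∀ i, |d i| ≤ 1) (n : ℕ) :
    ‖∑ i ∈ range n, (d i : ℂ) * y ^ i‖ ≤ ∑ i ∈ range n, ‖y‖ ^ i :=
  (norm_sum_le _ _).trans (sum_le_sum fun i _ => norm_dig y (d i) (hd i) i)

theorem eq_zero_of_lt (d : ℤ) (h : |(d : ℝ)| < 1) : d = 0 := by
  have h1 : |d| < 1 := by exact_mod_cast h
  exact Int.abs_lt_one_iff.1 h1

theorem norm_large (y : ℂ) (hy : 2 ≤ ‖y‖) : ∀ (n : ℕ) (d : ℕ → ℤ), (∀ i, |d i| ≤ 1) →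
    ∑ i ∈ range n, (d i : ℂ) * y ^ i = 0 → ∀ i < n, d i = 0 := by
  intro n
  induction n with
  | zero =>
    intro d _ _ i hi
    omega
  | succ n ih =>
    intro d hd h i hi
    rw [sum_range_succ] at h
    have h0 : d n = 0 := by
      have h1 : (d n : ℂ) * y ^ n = -∑ i ∈ range n, (d i : ℂ) * y ^ i := by
        linear_combination h
      have h2 : ‖(d n : ℂ) * y ^ n‖ < ‖y‖ ^ n := by
        rw [h1, norm_neg]
        exact (norm_sum y d hd n).trans_lt (geom_two _ hy n)
      rw [norm_mul, norm_pow, Complex.norm_intCast] at h2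
      apply eq_zero_of_lt
      have h3 : 0 < ‖y‖ ^ n := by positivity
      by_contra hcon
      push Not at hcon
      have h4 := mul_le_mul_of_nonneg_right hcon h3.le
      linarith
    rcases Nat.lt_succ_iff_lt_or_eq.1 hi with hi' | rfl
    · refine ih d hd ?_ i hi'
      rw [h0] at h
      simpa using h
    · exact h0

theorem norm_small (y : ℂ) (hy0 : y ≠ 0) (hy : ‖y‖ ≤ 1 / 2) : ∀ (n : ℕ) (d : ℕ → ℤ),
    (∀ i, |d i| ≤ 1) → ∑ i ∈ range n, (d i : ℂ) * y ^ i = 0 → ∀ i < n, d i = 0 := by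
  intro n
  induction n with
  | zero =>
    intro d _ _ i hi
    omega
  | succ n ih =>
    intro d hd h i hi
    rw [sum_range_succ'] at h
    have h1 : ∑ i ∈ range n, (d (i + 1) : ℂ) * y ^ (i + 1) =
        y * ∑ i ∈ range n, (d (i + 1) : ℂ) * y ^ i := by
      rw [mul_sum]
      exact sum_congr rfl fun i _ => by ring
    rw [h1, pow_zero, mul_one] at h
    have h0 : d 0 = 0 := by
      have h2 : (d 0 : ℂ) = -(y * ∑ i ∈ range n, (d (i + 1) : ℂ) * y ^ i) := by
        linear_combination h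
      apply eq_zero_of_lt
      rw [← Complex.norm_intCast, h2, norm_neg, norm_mul]
      have h3 := norm_sum y (fun i => d (i + 1)) (fun i => hd (i + 1)) n
      have h4 := geom_half ‖y‖ (norm_nonneg y) hy n
      have h5 : ‖∑ i ∈ range n, (d (i + 1) : ℂ) * y ^ i‖ < 2 := h3.trans_lt h4
      have h6 : 0 < ‖y‖ := norm_pos_iff.2 hy0
      nlinarith
    rcases i with _ | i
    · exact h0
    · refine ih (fun i => d (i + 1)) (fun i => hd (i + 1)) ?_ i (by omega)
      rw [h0, Int.cast_zero, add_zero] at h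
      exact (mul_eq_zero.1 h).resolve_left hy0

section val

variable {F : Type} [Field F] (v : Valuation F (WithZero (Multiplicative ℤ)))

theorem val_dig (d : ℤ) (hd : |d| ≤ 1) : v (d : F) ≤ 1 := by
  have h1 : d = -1 ∨ d = 0 ∨ d = 1 := by
    have := abs_le.1 hd
    omega
  rcases h1 with rfl | rfl | rfl
  · rw [Int.cast_neg, Int.cast_one, Valuation.map_neg, map_one]
  · rw [Int.cast_zero, map_zero]
    exact zero_le_one
  · rw [Int.cast_one, map_one]

theorem val_one (d : ℤ) (hd : |d| ≤ 1) (h0 : d ≠ 0) : v (d : F) = 1 := by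
  have h1 : d = -1 ∨ d = 1 := by
    have := abs_le.1 hd
    omega
  rcases h1 with rfl | rfl
  · rw [Int.cast_neg, Int.cast_one, Valuation.map_neg, map_one]
  · rw [Int.cast_one, map_one]

theorem val_large (y : F) (hy : 1 < v y) : ∀ (n : ℕ) (d : ℕ → ℤ), (∀ i, |d i| ≤ 1) →
    ∑ i ∈ range n, (d i : F) * y ^ i = 0 → ∀ i < n, d i = 0 := by
  have hy0 : v y ≠ 0 := (zero_lt_one.trans hy).ne'
  intro n
  induction n with
  | zero =>
    intro d _ _ i hi
    omega
  | succ n ih =>
    intro d hd h i hi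
    rw [sum_range_succ] at h
    have h0 : d n = 0 := by
      by_contra hcon
      have h1 : (d n : F) * y ^ n = -∑ i ∈ range n, (d i : F) * y ^ i := by
        linear_combination h
      have h2 : v ((d n : F) * y ^ n) = v y ^ n := by
        rw [map_mul, map_pow, val_one v (d n) (hd n) hcon, one_mul]
      have h3 : v (∑ i ∈ range n, (d i : F) * y ^ i) < v y ^ n := by
        apply Valuation.map_sum_lt v (pow_ne_zero n hy0)
        intro i hi
        rw [map_mul, map_pow]
        exact (mul_le_of_le_one_left' (val_dig v (d i) (hd i))).trans_lt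
          (pow_lt_pow_right₀ hy (mem_range.1 hi))
      rw [h1, Valuation.map_neg] at h2
      exact h3.ne h2
    rcases Nat.lt_succ_iff_lt_or_eq.1 hi with hi' | rfl
    · refine ih d hd ?_ i hi'
      rw [h0] at h
      simpa using h
    · exact h0

theorem val_small (y : F) (hy0 : y ≠ 0) (hy : v y < 1) : ∀ (n : ℕ) (d : ℕ → ℤ),
    (∀ i, |d i| ≤ 1) → ∑ i ∈ range n, (d i : F) * y ^ i = 0 → ∀ i < n, d i = 0 := by
  intro n
  induction n with
  | zero =>
    intro d _ _ i hi
    omega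
  | succ n ih =>
    intro d hd h i hi
    rw [sum_range_succ'] at h
    have h1 : ∑ i ∈ range n, (d (i + 1) : F) * y ^ (i + 1) =
        y * ∑ i ∈ range n, (d (i + 1) : F) * y ^ i := by
      rw [mul_sum]
      exact sum_congr rfl fun i _ => by ring
    rw [h1, pow_zero, mul_one] at h
    have h0 : d 0 = 0 := by
      by_contra hcon
      have h2 : (d 0 : F) = -(y * ∑ i ∈ range n, (d (i + 1) : F) * y ^ i) := by
        linear_combination h
      have h3 : v (∑ i ∈ range n, (d (i + 1) : F) * y ^ i) ≤ 1 := by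
        apply Valuation.map_sum_le v
        intro i _
        rw [map_mul, map_pow]
        exact mul_le_one' (val_dig v _ (hd (i + 1))) (pow_le_one' hy.le i)
      have h4 := val_one v (d 0) (hd 0) hcon
      rw [h2, Valuation.map_neg, map_mul] at h4
      have h5 : v y * v (∑ i ∈ range n, (d (i + 1) : F) * y ^ i) ≤ v y := mul_le_of_le_one_right' h3
      rw [h4] at h5
      exact absurd hy (not_lt.2 h5)
    rcases i with _ | i
    · exact h0
    · refine ih (fun i => d (i + 1)) (fun i => hd (i + 1)) ?_ i (by omega)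
      rw [h0, Int.cast_zero, add_zero] at h
      exact (mul_eq_zero.1 h).resolve_left hy0

end val

theorem act_pow {F : Type} [Field F] [Module F ℂ] (x : F) (r : ℂ) (h : ∀ z : ℂ, x • z = r * z)
    (m : ℕ) (z : ℂ) : x ^ m • z = r ^ m * z := by
  induction m with
  | zero => rw [pow_zero, one_smul, pow_zero, one_mul]
  | succ m ih => rw [pow_succ', mul_smul, ih, h, pow_succ', mul_assoc]

/-- the digit sums with digits at the multiples of `k` are digit sums -/
theorem mem_digs (r : ℂ) (k n : ℕ) (hk : 0 < k) (b : Fin n → Fin 2) :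
    ∑ i : Fin n, ((b i : ℕ) : ℂ) * (r ^ k) ^ (i : ℕ) ∈ digs r 2 (k * n) := by
  unfold digs
  rw [mem_image]
  refine ⟨fun j => if k ∣ (j : ℕ) then b ⟨j / k, Nat.div_lt_of_lt_mul j.2⟩ else 0,
    mem_univ _, ?_⟩
  set B : ℕ → ℕ := fun i => if h : i < n then (b ⟨i, h⟩ : ℕ) else 0 with hB
  have h1 : ∀ j : Fin (k * n),
      (((if k ∣ (j : ℕ) then b ⟨j / k, Nat.div_lt_of_lt_mul j.2⟩ else 0 : Fin 2) : ℕ) : ℂ) *
        r ^ (j : ℕ) = if k ∣ (j : ℕ) then (B (j / k) : ℂ) * r ^ (j : ℕ) else 0 := by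
    intro j
    split_ifs with h
    · have h2 : B ((j : ℕ) / k) = (b ⟨(j : ℕ) / k, Nat.div_lt_of_lt_mul j.2⟩ : ℕ) := by
        rw [hB]
        exact dif_pos (Nat.div_lt_of_lt_mul j.2)
      rw [h2]
    · simp
  rw [sum_congr rfl fun j _ => h1 j,
    Fin.sum_univ_eq_sum_range (fun j : ℕ => if k ∣ j then (B (j / k) : ℂ) * r ^ j else 0) (k * n),
    ← sum_filter]
  have h3 : (range (k * n)).filter (fun j => k ∣ j) = (range n).image (fun i => k * i) := by
    ext j
    rw [mem_filter, mem_range, mem_image]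
    constructor
    · rintro ⟨h4, i, rfl⟩
      exact ⟨i, mem_range.2 (Nat.lt_of_mul_lt_mul_left h4), rfl⟩
    · rintro ⟨i, hi, rfl⟩
      exact ⟨Nat.mul_lt_mul_of_pos_left (mem_range.1 hi) hk, dvd_mul_right k i⟩
  rw [h3, sum_image (fun i _ j _ h => Nat.eq_of_mul_eq_mul_left hk h)]
  have h5 : ∀ i : Fin n, ((b i : ℕ) : ℂ) * (r ^ k) ^ (i : ℕ) = (B i : ℂ) * r ^ (k * (i : ℕ)) := by
    intro i
    have h2 : B (i : ℕ) = (b i : ℕ) := by
      rw [hB]
      exact dif_pos i.2
    rw [h2, pow_mul]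
  rw [sum_congr rfl fun i _ => h5 i,
    Fin.sum_univ_eq_sum_range (fun i : ℕ => (B i : ℂ) * r ^ (k * i)) n]
  refine sum_congr rfl fun i _ => ?_
  rw [Nat.mul_div_cancel_left i hk]

/-- if the powers of `x ^ k` are independent for the digits `-1, 0, 1` then the number of the digit
sums grows -/
theorem grow {F : Type} [Field F] [Module F ℂ] (x : F) (r : ℂ) (h : ∀ z : ℂ, x • z = r * z)
    (k : ℕ) (hk : 0 < k) (hind : ∀ (n : ℕ) (d : ℕ → ℤ), (∀ i, |d i| ≤ 1) →
      ∑ i ∈ range n, (d i : F) * (x ^ k) ^ i = 0 → ∀ i < n, d i = 0) (n : ℕ) :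
    2 ^ n ≤ (digs r 2 (k * n)).card := by
  classical
  set f : (Fin n → Fin 2) → ℂ := fun b => ∑ i : Fin n, ((b i : ℕ) : ℂ) * (r ^ k) ^ (i : ℕ) with hf
  have hinj : Function.Injective f := by
    intro a b hab
    set d : ℕ → ℤ := fun i => if h : i < n then ((a ⟨i, h⟩ : ℕ) : ℤ) - ((b ⟨i, h⟩ : ℕ) : ℤ) else 0
      with hd
    have hd1 : ∀ i, |d i| ≤ 1 := by
      intro i
      by_cases hi : i < n
      · have h1 : d i = ((a ⟨i, hi⟩ : ℕ) : ℤ) - ((b ⟨i, hi⟩ : ℕ) : ℤ) := by
          rw [hd]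
          exact dif_pos hi
        rw [h1, abs_le]
        have h2 := (a ⟨i, hi⟩).2
        have h3 := (b ⟨i, hi⟩).2
        omega
      · have h1 : d i = 0 := by
          rw [hd]
          exact dif_neg hi
        rw [h1]
        norm_num
    have hsum : ∑ i ∈ range n, (d i : ℂ) * (r ^ k) ^ i = 0 := by
      rw [← Fin.sum_univ_eq_sum_range (fun i : ℕ => (d i : ℂ) * (r ^ k) ^ i) n]
      have h1 : ∀ i : Fin n, (d i : ℂ) * (r ^ k) ^ (i : ℕ) =
          ((a i : ℕ) : ℂ) * (r ^ k) ^ (i : ℕ) - ((b i : ℕ) : ℂ) * (r ^ k) ^ (i : ℕ) := by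
        intro i
        have h2 : d (i : ℕ) = ((a i : ℕ) : ℤ) - ((b i : ℕ) : ℤ) := by
          rw [hd]
          exact dif_pos i.2
        rw [h2]
        push_cast
        ring
      rw [sum_congr rfl fun i _ => h1 i, sum_sub_distrib]
      exact sub_eq_zero.2 hab
    have hF : ∑ i ∈ range n, (d i : F) * (x ^ k) ^ i = 0 := by
      have h1 : (∑ i ∈ range n, (d i : F) * (x ^ k) ^ i) • (1 : ℂ) = 0 := by
        rw [sum_smul, ← hsum]
        refine sum_congr rfl fun i _ => ?_
        rw [mul_smul, ← pow_mul, act_pow x r h, ← pow_mul, mul_one, Int.cast_smul_eq_zsmul,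
          zsmul_eq_mul]
      rcases smul_eq_zero.1 h1 with h2 | h2
      · exact h2
      · exact absurd h2 one_ne_zero
    have h0 := hind n d hd1 hF
    funext i
    have h1 := h0 i i.2
    have h2 : d (i : ℕ) = ((a i : ℕ) : ℤ) - ((b i : ℕ) : ℤ) := by
      rw [hd]
      exact dif_pos i.2
    rw [h2] at h1
    apply Fin.ext
    omega
  have hcard : ((univ : Finset (Fin n → Fin 2)).image f).card = 2 ^ n := by
    rw [card_image_of_injective _ hinj, card_univ, Fintype.card_fun, Fintype.card_fin,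
      Fintype.card_fin]
  rw [← hcard]
  apply card_le_card
  intro z hz
  rw [mem_image] at hz
  obtain ⟨b, -, rfl⟩ := hz
  exact mem_digs r k n hk b

theorem s_growth (hpl : S_place) : S_growth := by
  intro r hr hroot
  obtain ⟨F, _, _, x, hx0, hact, hcase⟩ := hpl r hr hroot
  rcases hcase with ⟨v, hv⟩ | ⟨σ, hσ⟩
  · refine ⟨1, Nat.one_pos, grow x r hact 1 Nat.one_pos ?_⟩
    rw [pow_one]
    rcases lt_or_gt_of_ne hv with h | h
    · exact val_small v x hx0 h
    · exact val_large v x h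
  · have hσ0 : σ x ≠ 0 := (map_ne_zero σ).2 hx0
    have htrans : ∀ k : ℕ, (∀ (n : ℕ) (d : ℕ → ℤ), (∀ i, |d i| ≤ 1) →
        ∑ i ∈ range n, (d i : ℂ) * (σ x ^ k) ^ i = 0 → ∀ i < n, d i = 0) →
        ∀ (n : ℕ) (d : ℕ → ℤ), (∀ i, |d i| ≤ 1) →
          ∑ i ∈ range n, (d i : F) * (x ^ k) ^ i = 0 → ∀ i < n, d i = 0 := by
      intro k hk n d hd h
      refine hk n d hd ?_
      have h1 := congrArg σ h
      rw [map_sum, map_zero] at h1
      rw [← h1]
      refine sum_congr rfl fun i _ => ?_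
      rw [map_mul, map_pow, map_pow, map_intCast]
    rcases lt_or_gt_of_ne hσ with h | h
    · obtain ⟨k, hk⟩ := exists_pow_lt_of_lt_one (show (0 : ℝ) < 1 / 2 by norm_num) h
      have hk0 : 0 < k := by
        rcases Nat.eq_zero_or_pos k with rfl | h1
        · rw [pow_zero] at hk
          norm_num at hk
        · exact h1
      refine ⟨k, hk0, grow x r hact k hk0 (htrans k ?_)⟩
      exact norm_small (σ x ^ k) (pow_ne_zero k hσ0) (by rw [norm_pow]; exact hk.le)
    · obtain ⟨k, hk⟩ := pow_unbounded_of_one_lt (2 : ℝ) h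
      have hk0 : 0 < k := by
        rcases Nat.eq_zero_or_pos k with rfl | h1
        · rw [pow_zero] at hk
          norm_num at hk
        · exact h1
      refine ⟨k, hk0, grow x r hact k hk0 (htrans k ?_)⟩
      exact norm_large (σ x ^ k) (by rw [norm_pow]; exact hk.le)

end Pool.Agent.H79.AKGrowth
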