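import Pool.Agent.H867.FT.Stm

/-!
# FT NPR: a principal divisorial power of `ω` gives a constant functional
-/

namespace Pool.Agent.H79.FTNPR

open Pool.Agent.H867.FT

variable {d n : ℕ} (C : Cone d n) (K : Type) [Field K]

/-- evaluation at the torus-fixed point is the coefficient at `0` -/
theorem aug_eq (s : C.Ring K) : C.aug K s = s.coeff 0 := by
  classical
  unfold Cone.aug
  rw [AddMonoidAlgebra.lift_apply]
  rw [Finsupp.sum]
  have h1 : ∀ a ∈ s.coeff.support, s.coeff a •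
      ((if Multiplicative.toAdd (Multiplicative.ofAdd a) = 0 then 1 else 0) : K)
        = if a = 0 then s.coeff 0 else 0 := by
    intro a _
    rw [toAdd_ofAdd]
    by_cases h : a = 0
    · rw [if_pos h, if_pos h, h, smul_eq_mul, mul_one]
    · rw [if_neg h, if_neg h, smul_zero]
  refine (Finset.sum_congr rfl h1).trans ?_
  rw [Finset.sum_ite_eq']
  split_ifs with h
  · rfl
  · exact (Finsupp.notMem_support_iff.mp h).symm

theorem coeff_ne_of_notMem {s : C.Ring K} (hs : s ∉ C.maxIdeal K) : s.coeff 0 ≠ 0 := by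
  intro h
  apply hs
  unfold Cone.maxIdeal
  rw [RingHom.mem_ker]
  have := aug_eq C K s
  rw [h] at this
  exact this

/-- the key coefficient comparison -/
theorem exists_add {s a : C.Ring K} {u m : C.S} (hs : s ∉ C.maxIdeal K)
    (h : s * AddMonoidAlgebra.single u 1 = a * AddMonoidAlgebra.single m 1) :
    ∃ c : C.S, c + m = u := by
  by_contra hc
  have hc' : ∀ c : C.S, c + m ≠ u := by
    intro c hcu
    exact hc ⟨c, hcu⟩
  have h1 : (a * AddMonoidAlgebra.single m (1 : K)).coeff u = 0 :=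
    AddMonoidAlgebra.coeff_mul_single_of_forall_add_ne _ _ hc'
  have h2 : (s * AddMonoidAlgebra.single u (1 : K)).coeff u = s.coeff 0 := by
    have h3 := AddMonoidAlgebra.coeff_mul_single_eq_coeff_mul (R := K) (M := C.S) (x := s)
      (r := (1 : K)) (m := u) (m₁ := u) 0 (by
        intro m' _
        constructor
        · intro h
          exact add_eq_right.mp h
        · intro h
          rw [h, zero_add])
    rw [h3, mul_one]
  rw [h, h1] at h2
  exact coeff_ne_of_notMem C K hs h2.symm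

/-- lattice functional with value one at a primitive vector -/
theorem exists_one (i : Fin n) : ∃ g : Fin d → ℤ, C.v i ⬝ᵥ g = 1 := by
  have hp : (Ideal.span (Set.range (C.v i))).IsPrincipal := inferInstance
  obtain ⟨k, hk⟩ := hp.principal
  have h1 : ∀ j, ∃ w, C.v i j = k * w := by
    intro j
    have : C.v i j ∈ Ideal.span (Set.range (C.v i)) := Ideal.subset_span ⟨j, rfl⟩
    rw [hk] at this
    obtain ⟨w, hw⟩ := Ideal.mem_span_singleton'.mp this
    exact ⟨w, by rw [← hw, mul_comm]⟩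
  choose w hw using h1
  have hu : IsUnit k := C.primitive i k w (by
    funext j
    rw [hw j, Pi.smul_apply, smul_eq_mul])
  have htop : (1 : ℤ) ∈ Ideal.span (Set.range (C.v i)) := by
    rw [hk]
    have : Submodule.span ℤ {k} = (⊤ : Ideal ℤ) := Ideal.span_singleton_eq_top.mpr hu
    rw [this]
    exact Submodule.mem_top
  obtain ⟨c, hc⟩ := (Ideal.mem_span_range_iff_exists_fun).mp htop
  refine ⟨c, ?_⟩
  rw [dotProduct, ← hc]
  exact Finset.sum_congr rfl (fun j _ => mul_comm _ _)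

/-- a monomial of the `r`-th divisorial power whose order along the `i`-th divisor is `r` -/
theorem exists_vertex (i : Fin n) (r : ℕ) :
    ∃ u : C.S, C.v i ⬝ᵥ (u : Fin d → ℤ) = r ∧ ∀ j, (r : ℤ) ≤ C.v j ⬝ᵥ (u : Fin d → ℤ) := by
  obtain ⟨g, hg⟩ := exists_one C i
  obtain ⟨h, hh0, hh⟩ := C.facet i
  set T : ℤ := ∑ j, |C.v j ⬝ᵥ g| with hT
  have hTj : ∀ j, |C.v j ⬝ᵥ g| ≤ T := by
    intro j
    exact Finset.single_le_sum (f := fun j => |C.v j ⬝ᵥ g|) (fun j _ => abs_nonneg _)
      (Finset.mem_univ j)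
  have hT0 : 0 ≤ T := Finset.sum_nonneg (fun j _ => abs_nonneg _)
  set w : Fin d → ℤ := (r : ℤ) • g + ((r : ℤ) * (1 + T)) • h with hw
  have hwd : ∀ j, C.v j ⬝ᵥ w = (r : ℤ) * (C.v j ⬝ᵥ g) + (r : ℤ) * (1 + T) * (C.v j ⬝ᵥ h) := by
    intro j
    rw [hw, dotProduct_add, dotProduct_smul, dotProduct_smul, smul_eq_mul, smul_eq_mul]
  have hr0 : (0 : ℤ) ≤ r := Int.natCast_nonneg r
  have hwi : C.v i ⬝ᵥ w = r := by
    rw [hwd i, hg, hh0]
    ring
  have hall : ∀ j, (r : ℤ) ≤ C.v j ⬝ᵥ w := by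
    intro j
    by_cases hj : j = i
    · rw [hj, hwi]
    · rw [hwd j]
      have h1 : (1 : ℤ) ≤ C.v j ⬝ᵥ h := hh j hj
      have h2 : -T ≤ C.v j ⬝ᵥ g := by
        have := neg_abs_le (C.v j ⬝ᵥ g)
        have := hTj j
        linarith
      have h3 : (1 + T) * 1 ≤ (1 + T) * (C.v j ⬝ᵥ h) :=
        mul_le_mul_of_nonneg_left h1 (by linarith)
      have h4 : (1 : ℤ) ≤ C.v j ⬝ᵥ g + (1 + T) * (C.v j ⬝ᵥ h) := by linarith
      have h5 : (r : ℤ) * 1 ≤ r * (C.v j ⬝ᵥ g + (1 + T) * (C.v j ⬝ᵥ h)) :=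
        mul_le_mul_of_nonneg_left h4 hr0
      linarith
  exact ⟨⟨w, fun j => hr0.trans (hall j)⟩, hwi, hall⟩

theorem npr : S_NPR := by
  intro K _ d n C hC hQ
  obtain ⟨r, hr, hP⟩ := hQ
  obtain ⟨g, hg⟩ := hP.principal
  set ι := algebraMap (C.Ring K) (C.LocalRing K) with hι
  set I := (C.omega K r).map ι with hI
  have hgI : g ∈ I := by
    rw [hg]
    exact Submodule.mem_span_singleton_self g
  -- the monomials of the divisorial power
  have hmem : ∀ u : C.S, (∀ i, (r : ℤ) ≤ C.v i ⬝ᵥ (u : Fin d → ℤ)) →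
      ι (AddMonoidAlgebra.single u 1) ∈ I := by
    intro u hu
    apply Ideal.mem_map_of_mem
    exact Ideal.subset_span ⟨u, hu, rfl⟩
  have hdiv : ∀ u : C.S, (∀ i, (r : ℤ) ≤ C.v i ⬝ᵥ (u : Fin d → ℤ)) →
      ∃ h, h * g = ι (AddMonoidAlgebra.single u 1) := by
    intro u hu
    have := hmem u hu
    rw [hg] at this
    exact Ideal.mem_span_singleton'.mp this
  -- monomials are nonzero in the local ring
  have hcomp : ∀ (x y : C.Ring K), ι x = ι y → ∃ s, s ∉ C.maxIdeal K ∧ s * x = s * y := by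
    intro x y hxy
    obtain ⟨c, hc⟩ := (IsLocalization.eq_iff_exists (C.maxIdeal K).primeCompl
      (C.LocalRing K)).mp hxy
    exact ⟨c, c.2, hc⟩
  have hne : ∀ u : C.S, ι (AddMonoidAlgebra.single u 1) ≠ 0 := by
    intro u h0
    obtain ⟨s, hs, hs2⟩ := hcomp (AddMonoidAlgebra.single u 1) 0 (by rw [h0, map_zero])
    rw [mul_zero] at hs2
    have h2 : (s * AddMonoidAlgebra.single u (1 : K)).coeff u = s.coeff 0 := by
      have h3 := AddMonoidAlgebra.coeff_mul_single_eq_coeff_mul (R := K) (M := C.S) (x := s)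
        (r := (1 : K)) (m := u) (m₁ := u) 0 (by
          intro m' _
          constructor
          · intro h
            exact add_eq_right.mp h
          · intro h
            rw [h, zero_add])
      rw [h3, mul_one]
    rw [hs2] at h2
    exact coeff_ne_of_notMem C K hs h2.symm
  obtain ⟨i₀, _⟩ := hC r 0 hr
  obtain ⟨u₀, hu₀, hu₀'⟩ := exists_vertex C i₀ r
  -- some multiplier is a unit
  have hunit : ∃ m : C.S, (∀ i, (r : ℤ) ≤ C.v i ⬝ᵥ (m : Fin d → ℤ)) ∧
      ∃ h, IsUnit h ∧ h * g = ι (AddMonoidAlgebra.single m 1) := by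
    by_contra hcon
    have hnot : ∀ u : C.S, (∀ i, (r : ℤ) ≤ C.v i ⬝ᵥ (u : Fin d → ℤ)) →
        ι (AddMonoidAlgebra.single u 1) ∈
          IsLocalRing.maximalIdeal (C.LocalRing K) * Ideal.span {g} := by
      intro u hu
      obtain ⟨h, hh⟩ := hdiv u hu
      rw [Ideal.mem_mul_span_singleton]
      refine ⟨h, ?_, hh⟩
      rw [IsLocalRing.mem_maximalIdeal, mem_nonunits_iff]
      intro hun
      exact hcon ⟨u, hu, h, hun, hh⟩
    have hle : I ≤ IsLocalRing.maximalIdeal (C.LocalRing K) * Ideal.span {g} := by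
      rw [hI, Ideal.map_le_iff_le_comap]
      unfold Cone.omega
      rw [Ideal.span_le]
      rintro f ⟨u, hu, rfl⟩
      exact hnot u hu
    have hg2 := hle hgI
    rw [Ideal.mem_mul_span_singleton] at hg2
    obtain ⟨z, hz, hzg⟩ := hg2
    have hz1 : IsUnit (1 - z) := by
      by_contra hnu
      have h1 : (1 - z) ∈ IsLocalRing.maximalIdeal (C.LocalRing K) := by
        rw [IsLocalRing.mem_maximalIdeal, mem_nonunits_iff]
        exact hnu
      have h2 : (1 : C.LocalRing K) ∈ IsLocalRing.maximalIdeal (C.LocalRing K) := by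
        have := Ideal.add_mem _ h1 hz
        rwa [sub_add_cancel] at this
      exact (Ideal.ne_top_iff_one _).mp (IsLocalRing.maximalIdeal.isMaximal _).ne_top h2
    have hg0 : g = 0 := by
      have h1 : (1 - z) * g = 0 := by
        rw [sub_mul, one_mul, hzg, sub_self]
      exact (hz1.mul_right_eq_zero).mp h1
    obtain ⟨h, hh⟩ := hdiv u₀ hu₀'
    rw [hg0, mul_zero] at hh
    exact hne u₀ hh.symm
  obtain ⟨m, hm, h, hun, hhm⟩ := hunit
  obtain ⟨k, hk⟩ := hun.exists_left_inv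
  -- divisibility of all the monomials by the m-th one
  have hle : ∀ u : C.S, (∀ i, (r : ℤ) ≤ C.v i ⬝ᵥ (u : Fin d → ℤ)) → ∃ c : C.S, c + m = u := by
    intro u hu
    obtain ⟨h', hh'⟩ := hdiv u hu
    have h1 : ι (AddMonoidAlgebra.single u 1) = (h' * k) * ι (AddMonoidAlgebra.single m 1) := by
      rw [← hhm, ← hh']
      calc h' * g = h' * ((k * h) * g) := by rw [hk, one_mul]
        _ = (h' * k) * (h * g) := by ring
    obtain ⟨⟨a, t⟩, hat⟩ := IsLocalization.surj (C.maxIdeal K).primeCompl (h' * k)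
    have h2 : ι ((t : C.Ring K) * AddMonoidAlgebra.single u 1)
        = ι (a * AddMonoidAlgebra.single m 1) := by
      rw [map_mul, map_mul, h1, ← mul_assoc, mul_comm (ι _) (h' * k)]
      exact congrArg (fun x => x * ι (AddMonoidAlgebra.single m 1)) hat
    obtain ⟨s, hs, hs2⟩ := hcomp _ _ h2
    have h3 : (s * (t : C.Ring K)) * AddMonoidAlgebra.single u (1 : K)
        = (s * a) * AddMonoidAlgebra.single m 1 := by
      rw [mul_assoc, mul_assoc]
      exact hs2
    have hst : s * (t : C.Ring K) ∉ C.maxIdeal K :=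
      (C.maxIdeal K).primeCompl.mul_mem hs t.2
    exact exists_add C K hst h3
  obtain ⟨i, hi⟩ := hC r (m : Fin d → ℤ) hr
  apply hi
  obtain ⟨u, hu, hu'⟩ := exists_vertex C i r
  obtain ⟨c, hc⟩ := hle u hu'
  have h1 : C.v i ⬝ᵥ (u : Fin d → ℤ) = C.v i ⬝ᵥ (c : Fin d → ℤ) + C.v i ⬝ᵥ (m : Fin d → ℤ) := by
    rw [← hc, AddSubmonoid.coe_add, dotProduct_add]
  have h2 := c.2 i
  have h3 := hm i
  linarith

end Pool.Agent.H79.FTNPR
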